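import Pool.Agent.Lib_MP_debdb1_mp.Defs

/-!
# Piece PAU: class sums of `X` which lie in the full Lie algebra

`ClassIn G A`: `i ∑_{a ∈ A} X_a` lies in the full Lie algebra.
-/

set_option autoImplicit false

namespace Pool.Agent.QAOA

variable {V : Type*} [Fintype V] [DecidableEq V]

/-- `i ∑_{a ∈ A} X_a` lies in the full Lie algebra -/
def ClassIn (G : SimpleGraph V) (A : Finset V) : Prop := Complex.I • ∑ a ∈ A, px a ∈ gStd G

section generalities

theorem gen_left (A B : Op V) : A ∈ gen A B := by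
  rw [gen, Submodule.mem_sInf]
  exact fun S hS => hS.1

theorem gen_right (A B : Op V) : B ∈ gen A B := by
  rw [gen, Submodule.mem_sInf]
  exact fun S hS => hS.2.1

theorem gen_comm (A B M N : Op V) (hM : M ∈ gen A B) (hN : N ∈ gen A B) : M * N - N * M ∈ gen A B := by
  rw [gen, Submodule.mem_sInf] at *
  exact fun S hS => hS.2.2 _ (hM S hS) _ (hN S hS)

/-- real linear combinations of the iterated commutators with a real diagonal operator -/
theorem poly_mem (S : Submodule ℝ (Op V)) (hS : ∀ M ∈ S, ∀ N ∈ S, M * N - N * M ∈ S) (h : (V → Bool) → ℝ)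
    (hD : Complex.I • (Matrix.diagonal (fun x => (h x : ℂ)) : Op V) ∈ S) (M : Op V) (hM : M ∈ S) (p : Polynomial ℝ) :
    (Matrix.of (fun x y => ((p.eval ((h x - h y) ^ 2) : ℝ) : ℂ) * M x y) : Op V) ∈ S := by
  have pw : ∀ n : ℕ, (Matrix.of (fun x y => ((((h x - h y) ^ 2) ^ n : ℝ) : ℂ) * M x y) : Op V) ∈ S := by
    intro n
    induction n with
    | zero =>
        convert hM using 1
        ext x y
        simp
    | succ n ih =>
        have h1 := hS _ hD _ (hS _ hD _ ih)
        have h2 := S.neg_mem h1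
        convert h2 using 1
        ext x y
        simp only [Matrix.of_apply, Matrix.neg_apply, Matrix.sub_apply, Matrix.smul_mul, Matrix.mul_smul,
          Matrix.smul_apply, Matrix.diagonal_mul, Matrix.mul_diagonal, smul_eq_mul]
        have hI : Complex.I ^ 2 = -1 := Complex.I_sq
        push_cast
        linear_combination ((((h x : ℂ) - (h y : ℂ)) ^ 2) ^ (n + 1) * M x y) * hI
  induction p using Polynomial.induction_on' with
  | add p q hp hq =>
      convert S.add_mem hp hq using 1
      ext x y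
      simp [Polynomial.eval_add, add_mul]
  | monomial n a =>
      convert S.smul_mem a (pw n) using 1
      ext x y
      simp [Polynomial.eval_monomial, mul_assoc]

theorem parity_poly (n : ℕ) : ∃ p : Polynomial ℝ, ∀ m : ℕ, m ≤ n → p.eval (4 * (m : ℝ) ^ 2) = ((m % 2 : ℕ) : ℝ) := by
  refine ⟨Lagrange.interpolate (Finset.range (n + 1)) (fun m => 4 * (m : ℝ) ^ 2) (fun m => ((m % 2 : ℕ) : ℝ)), ?_⟩
  intro m hm
  refine Lagrange.eval_interpolate_at_node (v := fun m : ℕ => 4 * (m : ℝ) ^ 2) (fun m : ℕ => ((m % 2 : ℕ) : ℝ)) ?_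
    (Finset.mem_range.2 (by omega))
  intro a _ b _ hab
  have h1 : (a : ℝ) ^ 2 = (b : ℝ) ^ 2 := by
    have : 4 * (a : ℝ) ^ 2 = 4 * (b : ℝ) ^ 2 := hab
    linarith
  have h2 : (a : ℝ) = b := by
    have ha : (0 : ℝ) ≤ a := Nat.cast_nonneg a
    have hb : (0 : ℝ) ≤ b := Nat.cast_nonneg b
    exact (sq_eq_sq₀ ha hb).1 h1
  exact_mod_cast h2

/-- sign as an integer -/
def si (b : Bool) : ℤ := if b then -1 else 1

theorem sg_eq (b : Bool) : sg b = ((si b : ℤ) : ℂ) := by
  cases b <;> simp [sg, si]

theorem si_sum_parity (N : Finset V) (x : V → Bool) :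
    (∑ b ∈ N, si (x b)).natAbs % 2 = N.card % 2 ∧ (∑ b ∈ N, si (x b)).natAbs ≤ N.card := by
  induction N using Finset.induction_on with
  | empty => simp
  | insert a s ha ih =>
      rw [Finset.sum_insert ha, Finset.card_insert_of_notMem ha]
      have : si (x a) = 1 ∨ si (x a) = -1 := by
        cases x a <;> simp [si]
      omega

/-- flip of the bit `a` -/
def flip (x : V → Bool) (a : V) : V → Bool := Function.update x a (!(x a))

theorem si_flip (x : V → Bool) (a b : V) : si (flip x a b) = if b = a then - si (x a) else si (x b) := by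
  by_cases h : b = a
  · subst h
    simp only [flip, Function.update_self, if_true]
    cases x b <;> simp [si]
  · simp [flip, h]

theorem sum_px_apply (A : Finset V) (x y : V → Bool) :
    (∑ a ∈ A, px a : Op V) x y = ∑ a ∈ A, if y = flip x a then 1 else 0 := by
  rw [Matrix.sum_apply]
  rfl

/-- the general parity argument -/
theorem parity_step (S : Submodule ℝ (Op V)) (hS : ∀ M ∈ S, ∀ N ∈ S, M * N - N * M ∈ S) (h : (V → Bool) → ℝ)
    (hD : Complex.I • (Matrix.diagonal (fun x => (h x : ℂ)) : Op V) ∈ S) (A : Finset V)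
    (hA : Complex.I • (∑ a ∈ A, px a : Op V) ∈ S) (N : V → Finset V)
    (hN : ∀ a ∈ A, ∀ x, h x - h (flip x a) = 2 * (si (x a) : ℝ) * ∑ b ∈ N a, (si (x b) : ℝ)) :
    Complex.I • (∑ a ∈ A.filter (fun a => (N a).card % 2 = 1), px a : Op V) ∈ S := by
  obtain ⟨p, hp⟩ := parity_poly (Fintype.card V)
  have key := poly_mem S hS h hD _ hA p
  convert key using 1
  ext x y
  simp only [Matrix.of_apply, Matrix.smul_apply, smul_eq_mul, sum_px_apply]
  rw [Finset.sum_filter, Finset.mul_sum, Finset.mul_sum, Finset.mul_sum]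
  refine Finset.sum_congr rfl fun a ha => ?_
  by_cases hy : y = flip x a
  · have e1 : p.eval ((h x - h y) ^ 2) = (((N a).card % 2 : ℕ) : ℝ) := by
      rw [hy, hN a ha x]
      obtain ⟨h1, h2⟩ := si_sum_parity (N a) x
      have h3 : (2 * (si (x a) : ℝ) * ∑ b ∈ N a, (si (x b) : ℝ)) ^ 2 = 4 * ((∑ b ∈ N a, si (x b)).natAbs : ℝ) ^ 2 := by
        have h4 : ((∑ b ∈ N a, si (x b)).natAbs : ℝ) ^ 2 = (∑ b ∈ N a, (si (x b) : ℝ)) ^ 2 := by
          have := Int.natAbs_sq (∑ b ∈ N a, si (x b))
          have h5 : (((∑ b ∈ N a, si (x b)).natAbs : ℤ) : ℝ) ^ 2 = ((∑ b ∈ N a, si (x b) : ℤ) : ℝ) ^ 2 := by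
            exact_mod_cast this
          rw [Int.cast_natCast] at h5
          rw [h5]
          push_cast
          rfl
        rw [h4]
        have h6 : (si (x a) : ℝ) ^ 2 = 1 := by
          cases x a <;> simp [si]
        calc (2 * (si (x a) : ℝ) * ∑ b ∈ N a, (si (x b) : ℝ)) ^ 2
            = 4 * (si (x a) : ℝ) ^ 2 * (∑ b ∈ N a, (si (x b) : ℝ)) ^ 2 := by ring
          _ = 4 * (∑ b ∈ N a, (si (x b) : ℝ)) ^ 2 := by rw [h6]; ring
      rw [h3, hp _ (le_trans h2 (Finset.card_le_univ _)), h1]
    rw [e1, if_pos hy]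
    rcases Nat.mod_two_eq_zero_or_one (N a).card with h0 | h0
    · rw [h0]; simp
    · rw [h0]; simp
  · rw [if_neg hy]
    split_ifs <;> simp

/-- quadratic form with weights `w` -/
noncomputable def hw (w : V → V → ℝ) (x : V → Bool) : ℝ := (1 / 2) * ∑ j, ∑ k, w j k * ((si (x j) : ℝ) * (si (x k) : ℝ))

theorem hw_flip (w : V → V → ℝ) (hsym : ∀ j k, w j k = w k j) (hdiag : ∀ j, w j j = 0) (x : V → Bool) (a : V) :
    hw w x - hw w (flip x a) = 2 * (si (x a) : ℝ) * ∑ k, w a k * (si (x k) : ℝ) := by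
  have e1 : ∀ j, (si (flip x a j) : ℝ) = (si (x j) : ℝ) - (if j = a then 2 * (si (x a) : ℝ) else 0) := by
    intro j
    rw [si_flip]
    by_cases h : j = a
    · subst h; simp; ring
    · simp [h]
  unfold hw
  have e2 : ∑ j, ∑ k, w j k * ((si (flip x a j) : ℝ) * (si (flip x a k) : ℝ)) =
      ∑ j, ∑ k, w j k * ((si (x j) : ℝ) * (si (x k) : ℝ)) - 2 * (si (x a) : ℝ) * (∑ k, w a k * (si (x k) : ℝ))
       - 2 * (si (x a) : ℝ) * (∑ j, w j a * (si (x j) : ℝ)) + 4 * w a a * (si (x a) : ℝ) ^ 2 := by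
    have : ∀ j k, w j k * ((si (flip x a j) : ℝ) * (si (flip x a k) : ℝ)) = w j k * ((si (x j) : ℝ) * (si (x k) : ℝ))
        - (if j = a then 2 * (si (x a) : ℝ) * (w a k * (si (x k) : ℝ)) else 0)
        - (if k = a then 2 * (si (x a) : ℝ) * (w j a * (si (x j) : ℝ)) else 0)
        + (if j = a then (if k = a then 4 * w a a * (si (x a) : ℝ) ^ 2 else 0) else 0) := by
      intro j k
      rw [e1, e1]
      by_cases hj : j = a <;> by_cases hk : k = a
      · subst hj; subst hk; simp; ring
      · subst hj; simp [hk]; ring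
      · subst hk; simp [hj]; ring
      · simp [hj, hk]
    simp only [this, Finset.sum_add_distrib, Finset.sum_sub_distrib]
    congr 1
    · congr 1
      · congr 1
        rw [Finset.sum_eq_single a]
        · simp [Finset.mul_sum]
        · intro b _ hb; simp [hb]
        · simp
      · rw [Finset.mul_sum]
        refine Finset.sum_congr rfl fun j _ => ?_
        rw [Finset.sum_ite_eq' Finset.univ a]
        simp
    · rw [Finset.sum_eq_single a]
      · simp
      · intro b _ hb; simp [hb]
      · simp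
  rw [e2, hdiag a]
  have e3 : ∑ j, w j a * (si (x j) : ℝ) = ∑ k, w a k * (si (x k) : ℝ) :=
    Finset.sum_congr rfl fun j _ => by rw [hsym]
  rw [e3]
  ring

/-- the operator with weights `w` -/
noncomputable def Hw (w : V → V → ℝ) : Op V := (1 / 2 : ℂ) • ∑ j, ∑ k, (w j k : ℂ) • (pz j * pz k)

theorem Hw_eq (w : V → V → ℝ) : Hw w = Matrix.diagonal (fun x => ((hw w x : ℝ) : ℂ)) := by
  ext x y
  simp only [Hw, hw, pz, Matrix.smul_apply, Matrix.sum_apply, Matrix.diagonal_mul_diagonal, smul_eq_mul]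
  by_cases hxy : x = y
  · subst hxy
    simp only [Matrix.diagonal_apply_eq, sg_eq]
    push_cast
    rfl
  · simp [Matrix.diagonal_apply_ne _ hxy]

open Classical in
theorem HP_eq (G : SimpleGraph V) : HP G = Hw (fun j k => if G.Adj j k then 1 else 0) := by
  unfold HP Hw
  congr 1
  refine Finset.sum_congr rfl fun j _ => Finset.sum_congr rfl fun k _ => ?_
  by_cases h : G.Adj j k <;> simp [h]

end generalities

section commutators

theorem px_sq (a : V) : (px a * px a : Op V) = 1 := by
  ext x y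
  rw [Matrix.mul_apply, Finset.sum_eq_single (flip x a)]
  · have h1 : (px a : Op V) x (flip x a) = 1 := by simp [px, flip]
    have h2 : (px a : Op V) (flip x a) y = if y = x then 1 else 0 := by
      have : Function.update (flip x a) a (!(flip x a a)) = x := by
        funext b
        by_cases h : b = a
        · subst h; simp [flip]
        · simp [flip, h]
      simp only [px, Matrix.of_apply, this]
    rw [h1, h2, one_mul, Matrix.one_apply]
    by_cases h : x = y
    · simp [h]
    · rw [if_neg h, if_neg (Ne.symm h)]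
  · intro z _ hz
    have : (px a : Op V) x z = 0 := by
      simp only [px, Matrix.of_apply]
      rw [if_neg]
      exact hz
    rw [this, zero_mul]
  · intro h
    exact absurd (Finset.mem_univ _) h

theorem px_mul_apply (a : V) (M : Op V) (x y : V → Bool) : (px a * M) x y = M (flip x a) y := by
  rw [Matrix.mul_apply, Finset.sum_eq_single (flip x a)]
  · simp [px, flip]
  · intro z _ hz
    have : (px a : Op V) x z = 0 := by
      simp only [px, Matrix.of_apply]
      rw [if_neg]
      exact hz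
    rw [this, zero_mul]
  · intro h
    exact absurd (Finset.mem_univ _) h

theorem flip_flip (x : V → Bool) (a : V) : flip (flip x a) a = x := by
  funext b
  by_cases h : b = a
  · subst h; simp [flip]
  · simp [flip, h]

theorem flip_comm (x : V → Bool) (a b : V) : flip (flip x a) b = flip (flip x b) a := by
  funext c
  by_cases ha : c = a <;> by_cases hb : c = b
  · subst ha; subst hb; rfl
  · subst ha; simp [flip, hb]
  · subst hb; simp [flip, ha]
  · simp [flip, ha, hb]

theorem px_comm (a b : V) : (px a * px b : Op V) = px b * px a := by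
  ext x y
  rw [px_mul_apply, px_mul_apply]
  change (if y = flip (flip x a) b then (1 : ℂ) else 0) = if y = flip (flip x b) a then 1 else 0
  rw [flip_comm]

/-- `X_a D = D' X_a` for diagonal operators -/
theorem px_diag (a : V) (f : (V → Bool) → ℂ) :
    (px a * Matrix.diagonal f : Op V) = Matrix.diagonal (fun x => f (flip x a)) * px a := by
  ext x y
  rw [px_mul_apply, Matrix.diagonal_mul]
  change (Matrix.diagonal f : Op V) (flip x a) y = f (flip x a) * (if y = flip x a then 1 else 0)
  by_cases h : y = flip x a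
  · subst h; simp
  · rw [Matrix.diagonal_apply_ne _ (Ne.symm h), if_neg h, mul_zero]

theorem zz_diag (j k : V) : (pz j * pz k : Op V) = Matrix.diagonal (fun x => sg (x j) * sg (x k)) := by
  rw [pz, pz, Matrix.diagonal_mul_diagonal]

theorem sg_flip (x : V → Bool) (a b : V) : sg (flip x a b) = if b = a then - sg (x b) else sg (x b) := by
  rw [sg_eq, sg_eq, si_flip]
  by_cases h : b = a
  · subst h; simp
  · simp [h]

theorem px_zz_in_left (j k : V) (hjk : j ≠ k) : (px j * (pz j * pz k) : Op V) = - (pz j * pz k * px j) := by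
  rw [zz_diag, px_diag, ← neg_mul]
  congr 1
  rw [Matrix.diagonal_neg]
  congr 1
  funext x
  simp [sg_flip, Ne.symm hjk]

theorem px_zz_in_right (j k : V) (hjk : j ≠ k) : (px k * (pz j * pz k) : Op V) = - (pz j * pz k * px k) := by
  rw [zz_diag, px_diag, ← neg_mul]
  congr 1
  rw [Matrix.diagonal_neg]
  congr 1
  funext x
  simp [sg_flip, hjk]

theorem px_zz_out (a j k : V) (hj : j ≠ a) (hk : k ≠ a) : (px a * (pz j * pz k) : Op V) = pz j * pz k * px a := by
  rw [zz_diag, px_diag]
  congr 1
  congr 1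
  funext x
  simp [sg_flip, hj, hk]

/-- commutator with `X_A` -/
noncomputable def ad (A : Finset V) : Op V →ₗ[ℂ] Op V :=
  LinearMap.mulLeft ℂ (∑ a ∈ A, px a : Op V) - LinearMap.mulRight ℂ (∑ a ∈ A, px a : Op V)

theorem ad_apply (A : Finset V) (M : Op V) : ad A M = (∑ a ∈ A, px a) * M - M * ∑ a ∈ A, px a := rfl

/-- the part of `X_A` which does not commute with `Z_j Z_k` -/
noncomputable def Wp (A : Finset V) (j k : V) : Op V := (if j ∈ A then px j else 0) + (if k ∈ A then px k else 0)

theorem ad_zz (A : Finset V) (j k : V) (hjk : j ≠ k) : ad A (pz j * pz k) = (2 : ℂ) • (Wp A j k * (pz j * pz k)) := by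
  rw [ad_apply, Finset.sum_mul, Finset.mul_sum, ← Finset.sum_sub_distrib]
  have e : ∀ a ∈ A, (px a * (pz j * pz k) - pz j * pz k * px a : Op V) =
      (if a = j then (2 : ℂ) • (px j * (pz j * pz k)) else 0) + (if a = k then (2 : ℂ) • (px k * (pz j * pz k)) else 0) := by
    intro a _
    by_cases h1 : a = j
    · subst h1
      rw [if_pos rfl, if_neg hjk, add_zero, two_smul]
      have := px_zz_in_left a k hjk
      rw [sub_eq_add_neg, ← this]
    · by_cases h2 : a = k
      · subst h2
        rw [if_neg h1, if_pos rfl, zero_add, two_smul]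
        have := px_zz_in_right j a hjk
        rw [sub_eq_add_neg, ← this]
      · rw [if_neg h1, if_neg h2, px_zz_out a j k (Ne.symm h1) (Ne.symm h2), sub_self, add_zero]
  rw [Finset.sum_congr rfl e, Finset.sum_add_distrib, Finset.sum_ite_eq', Finset.sum_ite_eq', Wp, add_mul, smul_add]
  congr 1
  · split_ifs <;> simp
  · split_ifs <;> simp

theorem ad_mul_of_comm (A : Finset V) (W M : Op V) (h : (∑ a ∈ A, px a) * W = W * ∑ a ∈ A, px a) :
    ad A (W * M) = W * ad A M := by
  rw [ad_apply, ad_apply, mul_sub, ← mul_assoc, ← mul_assoc, ← mul_assoc, h, mul_assoc W _ M]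

theorem Wp_comm (A : Finset V) (j k : V) : (∑ a ∈ A, px a) * Wp A j k = Wp A j k * ∑ a ∈ A, px a := by
  rw [Finset.sum_mul, Finset.mul_sum]
  refine Finset.sum_congr rfl fun a _ => ?_
  rw [Wp, mul_add, add_mul]
  congr 1
  · split_ifs
    · exact px_comm a j
    · simp
  · split_ifs
    · exact px_comm a k
    · simp

theorem ad2_zz (A : Finset V) (j k : V) (hjk : j ≠ k) :
    ad A (ad A (pz j * pz k)) = (4 : ℂ) • (Wp A j k * (Wp A j k * (pz j * pz k))) := by
  rw [ad_zz A j k hjk, map_smul, ad_mul_of_comm A _ _ (Wp_comm A j k), ad_zz A j k hjk, Matrix.mul_smul, smul_smul]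
  norm_num

/-- projection of the operators `Z_j Z_k` to those with exactly one of `j`, `k` in `A` -/
noncomputable def qA (A : Finset V) (M : Op V) : Op V := (1 / 3 : ℂ) • ad A (ad A M) - (1 / 48 : ℂ) • ad A (ad A (ad A (ad A M)))

theorem ad4_zz (A : Finset V) (j k : V) (hjk : j ≠ k) :
    ad A (ad A (ad A (ad A (pz j * pz k)))) =
      (16 : ℂ) • (Wp A j k * (Wp A j k * (Wp A j k * (Wp A j k * (pz j * pz k))))) := by
  rw [ad2_zz A j k hjk, map_smul, map_smul, ad_mul_of_comm A _ _ (Wp_comm A j k), ad_mul_of_comm A _ _ (Wp_comm A j k),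
    ad_mul_of_comm A _ _ (Wp_comm A j k), ad_mul_of_comm A _ _ (Wp_comm A j k), ad2_zz A j k hjk, Matrix.mul_smul,
    Matrix.mul_smul, smul_smul]
  norm_num

theorem qA_zz (A : Finset V) (j k : V) (hjk : j ≠ k) :
    qA A (pz j * pz k) = if (j ∈ A ∧ k ∉ A) ∨ (j ∉ A ∧ k ∈ A) then pz j * pz k else 0 := by
  rw [qA, ad4_zz A j k hjk, ad2_zz A j k hjk]
  set M : Op V := pz j * pz k with hM
  by_cases hj : j ∈ A <;> by_cases hk : k ∈ A
  · rw [if_neg (by tauto)]
    have hW : Wp A j k = px j + px k := by simp [Wp, hj, hk]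
    have h2 : Wp A j k * Wp A j k = (2 : ℂ) • (1 + px j * px k) := by
      rw [hW, add_mul, mul_add, mul_add, px_sq, px_sq, px_comm k j, two_smul]
      abel
    have h3 : (px j * px k * (px j * px k) : Op V) = 1 := by
      rw [px_comm j k, mul_assoc, ← mul_assoc (px j) (px k), px_comm j k, mul_assoc (px k) (px j) , px_sq, mul_one, px_sq]
    have h4 : Wp A j k * Wp A j k * (Wp A j k * Wp A j k) = (4 : ℂ) • (Wp A j k * Wp A j k) := by
      rw [h2, Matrix.smul_mul, Matrix.mul_smul, smul_smul, smul_smul]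
      have : ((1 + px j * px k) * (1 + px j * px k) : Op V) = (2 : ℂ) • (1 + px j * px k) := by
        rw [add_mul, mul_add, one_mul, mul_add, mul_one, h3, two_smul]
        simp only [mul_one, one_mul]
        abel
      rw [this, smul_smul]
      norm_num
    have h5 : Wp A j k * (Wp A j k * (Wp A j k * (Wp A j k * M))) = (4 : ℂ) • (Wp A j k * (Wp A j k * M)) := by
      calc Wp A j k * (Wp A j k * (Wp A j k * (Wp A j k * M))) = Wp A j k * Wp A j k * (Wp A j k * Wp A j k) * M := by
            simp only [mul_assoc]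
        _ = (4 : ℂ) • (Wp A j k * (Wp A j k * M)) := by
            rw [h4, Matrix.smul_mul, mul_assoc]
    rw [h5, smul_smul, smul_smul, smul_smul, ← sub_smul]
    norm_num
  · rw [if_pos (Or.inl ⟨hj, hk⟩)]
    have hW : Wp A j k = px j := by simp [Wp, hj, hk]
    have h2 : ∀ N : Op V, Wp A j k * (Wp A j k * N) = N := by
      intro N
      rw [hW, ← mul_assoc, px_sq, one_mul]
    rw [h2, h2, smul_smul, smul_smul, ← sub_smul]
    norm_num
  · rw [if_pos (Or.inr ⟨hj, hk⟩)]
    have hW : Wp A j k = px k := by simp [Wp, hj, hk]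
    have h2 : ∀ N : Op V, Wp A j k * (Wp A j k * N) = N := by
      intro N
      rw [hW, ← mul_assoc, px_sq, one_mul]
    rw [h2, h2, smul_smul, smul_smul, ← sub_smul]
    norm_num
  · rw [if_neg (by tauto)]
    have hW : Wp A j k = 0 := by simp [Wp, hj, hk]
    simp [hW]

theorem qA_Hw (A : Finset V) (w : V → V → ℝ) (hdiag : ∀ j, w j j = 0) :
    qA A (Hw w) = Hw (fun j k => if (j ∈ A ∧ k ∉ A) ∨ (j ∉ A ∧ k ∈ A) then w j k else 0) := by
  have hlin : ∀ M : Op V, qA A M = ((1 / 3 : ℂ) • (ad A ∘ₗ ad A) - (1 / 48 : ℂ) • (ad A ∘ₗ ad A ∘ₗ ad A ∘ₗ ad A)) M := by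
    intro M
    rfl
  rw [hlin, Hw, map_smul, map_sum, Hw]
  congr 1
  refine Finset.sum_congr rfl fun j _ => ?_
  rw [map_sum]
  refine Finset.sum_congr rfl fun k _ => ?_
  rw [map_smul, ← hlin]
  by_cases hjk : j = k
  · subst hjk
    simp [hdiag]
  · rw [qA_zz A j k hjk]
    split_ifs <;> simp

theorem ad2_mem (S : Submodule ℝ (Op V)) (hS : ∀ M ∈ S, ∀ N ∈ S, M * N - N * M ∈ S) (A : Finset V)
    (hA : Complex.I • (∑ a ∈ A, px a : Op V) ∈ S) (M : Op V) (hM : Complex.I • M ∈ S) : Complex.I • ad A (ad A M) ∈ S := by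
  have h1 := hS _ hA _ (hS _ hA _ hM)
  have h2 := S.neg_mem h1
  convert h2 using 1
  have hI : Complex.I * Complex.I = -1 := Complex.I_mul_I
  simp only [ad_apply, Matrix.smul_mul, Matrix.mul_smul, smul_smul, ← smul_sub, hI]
  simp only [neg_one_mul, mul_neg_one, neg_smul, smul_sub, neg_sub, sub_neg_eq_add, neg_neg]
  abel

theorem qA_mem (S : Submodule ℝ (Op V)) (hS : ∀ M ∈ S, ∀ N ∈ S, M * N - N * M ∈ S) (A : Finset V)
    (hA : Complex.I • (∑ a ∈ A, px a : Op V) ∈ S) (M : Op V) (hM : Complex.I • M ∈ S) : Complex.I • qA A M ∈ S := by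
  have h2 := ad2_mem S hS A hA M hM
  have h4 := ad2_mem S hS A hA _ h2
  have h5 := S.sub_mem (S.smul_mem (1 / 3 : ℝ) h2) (S.smul_mem (1 / 48 : ℝ) h4)
  convert h5 using 1
  rw [qA, smul_sub]
  ext x y
  simp only [Matrix.sub_apply, Matrix.smul_apply, smul_eq_mul, Complex.real_smul]
  push_cast
  ring

end commutators

theorem classIn_univ (G : SimpleGraph V) : ClassIn G Finset.univ := gen_right _ _

theorem classIn_sdiff (G : SimpleGraph V) (A B : Finset V) (hA : ClassIn G A) (hB : ClassIn G B) (h : B ⊆ A) : ClassIn G (A \ B) := by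
  unfold ClassIn at *
  have h1 := (gStd G).sub_mem hA hB
  convert h1 using 1
  rw [← smul_sub, ← Finset.sum_sdiff h]
  simp

theorem gStd_comm (G : SimpleGraph V) : ∀ M ∈ gStd G, ∀ N ∈ gStd G, M * N - N * M ∈ gStd G :=
  fun M hM N hN => gen_comm _ _ M N hM hN

open Classical in
/-- parity of the degree -/
theorem classIn_deg (G : SimpleGraph V) (A : Finset V) (hA : ClassIn G A) :
    ClassIn G (A.filter (fun a => (Finset.univ.filter (fun x => G.Adj a x)).card % 2 = 1)) := by
  refine parity_step (gStd G) (gStd_comm G) (hw (fun j k => if G.Adj j k then 1 else 0)) ?_ A hA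
    (fun a => Finset.univ.filter (fun x => G.Adj a x)) ?_
  · rw [← Hw_eq, ← HP_eq]
    exact gen_left _ _
  · intro a _ x
    rw [hw_flip]
    · congr 1
      rw [Finset.sum_filter]
      refine Finset.sum_congr rfl fun k _ => ?_
      split_ifs <;> simp
    · intro j k
      simp [G.adj_comm]
    · intro j
      simp

open Classical in
/-- parity of the number of neighbours in `B` -/
theorem classIn_nbr (G : SimpleGraph V) (A B : Finset V) (hA : ClassIn G A) (hB : ClassIn G B) (h : Disjoint A B) :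
    ClassIn G (A.filter (fun a => (B.filter (fun x => G.Adj a x)).card % 2 = 1)) := by
  set w0 : V → V → ℝ := fun j k => if G.Adj j k then 1 else 0 with hw0
  set w1 : V → V → ℝ := fun j k => if (j ∈ A ∧ k ∉ A) ∨ (j ∉ A ∧ k ∈ A) then w0 j k else 0 with hw1
  set w2 : V → V → ℝ := fun j k => if (j ∈ B ∧ k ∉ B) ∨ (j ∉ B ∧ k ∈ B) then w1 j k else 0 with hw2
  have m0 : Complex.I • Hw w0 ∈ gStd G := by
    rw [← HP_eq]
    exact gen_left _ _
  have m1 : Complex.I • Hw w1 ∈ gStd G := by
    have := qA_mem (gStd G) (gStd_comm G) A hA _ m0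
    rwa [qA_Hw A w0 (by intro j; simp [hw0])] at this
  have m2 : Complex.I • Hw w2 ∈ gStd G := by
    have := qA_mem (gStd G) (gStd_comm G) B hB _ m1
    rwa [qA_Hw B w1 (by intro j; simp [hw1, hw0])] at this
  refine parity_step (gStd G) (gStd_comm G) (hw w2) ?_ A hA (fun a => B.filter (fun x => G.Adj a x)) ?_
  · rw [← Hw_eq]
    exact m2
  · intro a ha x
    rw [hw_flip]
    · congr 1
      rw [Finset.sum_filter, ← Finset.sum_filter_add_sum_filter_not Finset.univ (fun k => k ∈ B)]
      have e1 : ∑ k ∈ Finset.univ.filter (fun k => ¬ k ∈ B), w2 a k * (si (x k) : ℝ) = 0 := by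
        refine Finset.sum_eq_zero fun k hk => ?_
        have hk' : k ∉ B := (Finset.mem_filter.1 hk).2
        have ha' : a ∉ B := Finset.disjoint_left.1 h ha
        simp [hw2, hk', ha']
      rw [e1, add_zero]
      have e2 : Finset.univ.filter (fun k => k ∈ B) = B := by ext k; simp
      rw [e2]
      refine Finset.sum_congr rfl fun k hk => ?_
      have ha' : a ∉ B := Finset.disjoint_left.1 h ha
      have hk' : k ∉ A := Finset.disjoint_right.1 h hk
      simp only [hw2, hw1, hw0]
      rw [if_pos (Or.inr ⟨ha', hk⟩), if_pos (Or.inl ⟨ha, hk'⟩)]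
      split_ifs <;> simp
    · intro j k
      simp only [hw2, hw1, hw0, G.adj_comm j k]
      congr 1
      · apply propext; tauto
      · congr 1
        apply propext; tauto
    · intro j
      simp [hw2, hw1, hw0]

end Pool.Agent.QAOA
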