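import Pool.Agent.Lib_MP_debdb1_mp.Defs

/-!
# Piece ASY: a graph all of whose equitable partitions modulo 2 are discrete is asymmetric
-/

set_option autoImplicit false

namespace Pool.Agent.QAOA

variable {V : Type*} [Fintype V] [DecidableEq V]

omit [Fintype V] [DecidableEq V] in
private theorem asy_ai (q : Equiv.Perm V) (x : V) : q (q⁻¹ x) = x := q.apply_symm_apply x

omit [Fintype V] [DecidableEq V] in
/-- powers of an automorphism preserve adjacency (natural powers) -/
private theorem asy_adj_pow (G : SimpleGraph V) (p : Equiv.Perm V) (hp : ∀ a b, G.Adj (p a) (p b) ↔ G.Adj a b)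
    (n : ℕ) : ∀ a b, G.Adj ((p ^ n) a) ((p ^ n) b) ↔ G.Adj a b := by
  induction n with
  | zero => intro a b; simp
  | succ n ih =>
    intro a b
    rw [pow_succ, Equiv.Perm.mul_apply, Equiv.Perm.mul_apply, ih, hp]

omit [Fintype V] [DecidableEq V] in
/-- powers of an automorphism preserve adjacency (integer powers) -/
private theorem asy_adj_zpow (G : SimpleGraph V) (p : Equiv.Perm V) (hp : ∀ a b, G.Adj (p a) (p b) ↔ G.Adj a b)
    (m : ℤ) (a b : V) : G.Adj ((p ^ m) a) ((p ^ m) b) ↔ G.Adj a b := by
  cases m with
  | ofNat n =>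
    rw [Int.ofNat_eq_natCast, zpow_natCast]
    exact asy_adj_pow G p hp n a b
  | negSucc n =>
    rw [zpow_negSucc]
    have h := asy_adj_pow G p hp (n + 1) ((p ^ (n + 1))⁻¹ a) ((p ^ (n + 1))⁻¹ b)
    rw [asy_ai, asy_ai] at h
    exact h.symm

/-- for an automorphism `σ` let `c u` be a chosen representative of the orbit of `u` under the powers of `σ`
(`Equiv.Perm.SameCycle.setoid`, `Quotient.out`); `c` is equitable since `x ↦ σ ^ m x` maps `N(u) ∩ C` bijectively to
`N(σ ^ m u) ∩ C` for each orbit `C` -/
theorem asymmetric_of_equi (G : SimpleGraph V) (h : ∀ c : V → V, Equi G c → Function.Injective c) : Asymmetric G := by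
  classical
  intro σ v
  let p : Equiv.Perm V := σ.toEquiv
  have hp : ∀ a b, G.Adj (p a) (p b) ↔ G.Adj a b := fun a b => σ.map_rel_iff
  let s : Setoid V := Equiv.Perm.SameCycle.setoid p
  let c : V → V := fun u => (Quotient.mk s u).out
  have hc : ∀ u w, c u = c w ↔ p.SameCycle u w := by
    intro u w
    constructor
    · intro e
      have h1 : Quotient.mk s u = Quotient.mk s w := by
        rw [← Quotient.out_eq (Quotient.mk s u), ← Quotient.out_eq (Quotient.mk s w)]
        exact congrArg (Quotient.mk s) e
      exact Quotient.exact h1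
    · intro e
      have h1 : Quotient.mk s u = Quotient.mk s w := Quotient.sound e
      exact congrArg Quotient.out h1
  have hE : Equi G c := by
    intro u w huw t
    obtain ⟨m, hm⟩ := (hc u w).1 huw
    have hcard : (Finset.univ.filter (fun x => G.Adj u x ∧ c x = t)).card =
        (Finset.univ.filter (fun x => G.Adj w x ∧ c x = t)).card := by
      refine Finset.card_bij (fun x _ => (p ^ m) x) ?_ ?_ ?_
      · intro x hx
        rw [Finset.mem_filter] at hx ⊢
        refine ⟨Finset.mem_univ _, ?_, ?_⟩
        · rw [← hm]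
          exact (asy_adj_zpow G p hp m u x).2 hx.2.1
        · rw [← hx.2.2]
          exact ((hc x ((p ^ m) x)).2 ⟨m, rfl⟩).symm
      · intro x _ y _ hxy
        exact (p ^ m).injective hxy
      · intro y hy
        rw [Finset.mem_filter] at hy
        refine ⟨(p ^ m)⁻¹ y, ?_, ?_⟩
        · rw [Finset.mem_filter]
          refine ⟨Finset.mem_univ _, ?_, ?_⟩
          · rw [← asy_adj_zpow G p hp m, hm, asy_ai]
            exact hy.2.1
          · rw [← hy.2.2]
            refine (hc _ _).2 ⟨m, ?_⟩
            rw [asy_ai]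
        · exact asy_ai _ _
    convert congrArg (· % 2) hcard
  have hinj := h c hE
  have h2 : c (σ v) = c v := (hc (σ v) v).2 (Equiv.Perm.SameCycle.symm ⟨1, by simp [p]⟩)
  exact hinj h2

end Pool.Agent.QAOA
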