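import Pool.Agent.Lib_MP_debdb1_mp.Defs

/-!
# Piece CNT1: the number of graphs for which a given partition is equitable modulo 2

Paper proof. Let `k` be the number of classes, `k2` the number of classes with at least two elements, `k1 = k - k2`. Choose in every
class `B` with at least two elements two different elements `r_B`, `s_B`. Let `R2 = {r_B}`, `S2 = {s_B}`, `R1` = the union of the
singleton classes, `U` the rest (`|U| = n - k - k2`). Let `D` be the set of the (non diagonal) pairs `{a, b} : Sym2 (Fin n)` with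
 (one element in `S2` and the other one in `U ∪ S2 ∪ R1`) or (one in `R1`, the other one in `U`).
`|D| = k2 |U| + choose k2 2 + k2 k1 + k1 |U|`.
Claim: if `G`, `G'` are equitable modulo 2 for `f` and `G.edgeSet \ D = G'.edgeSet \ D` then `G = G'`. Indeed no pair of `D` contains an
element of `R2`. (a) `u ∈ U` of class `A` (so `A` has at least two elements) and `B` a class with two elements: the parities of `|N(u) ∩ B|`
and `|N(r_A) ∩ B|` are equal for `G` and for `G'`; the pairs `{r_A, x}` are not in `D`, the pairs `{u, x}` with `x ∈ B`, `x ≠ s_B` are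
not in `D`, hence `{u, s_B}` is an edge of `G` iff it is an edge of `G'`. (b) `u ∈ U` and `B = {x}` a singleton: the same with `{u, x}`
in place of `{u, s_B}`. (c) `s_A` and a class `B ≠ A` (with two elements, or a singleton): the parities of `|N(s_A) ∩ B|` and
`|N(r_A) ∩ B|` are equal, the pairs `{s_A, x}`, `x ∈ B`, are outside `D` (`x = r_B`) or of the type treated in (a) (`x ∈ U`),
except `{s_A, s_B}` (resp. `{s_A, x}` for `B = {x}`).
Now `G ↦ G.edgeFinset \ D` is injective from the equitable graphs into the subsets of (non diagonal pairs) `\ D`, and there are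
`2 ^ (choose n 2 - |D|)` such subsets.
-/

set_option autoImplicit false

namespace Pool.Agent.QAOA

open Finset

open Classical in
theorem cnt1_key {n : ℕ} {ι : Type} (f : Fin n → ι) (H : SimpleGraph (Fin n)) (u y : Fin n) (t : ι) (hy : f y = t) :
    (univ.filter (fun x => H.Adj u x ∧ f x = t)).card =
      (univ.filter (fun x => (H.Adj u x ∧ f x = t) ∧ x ≠ y)).card + (if H.Adj u y then 1 else 0) := by
  by_cases h : H.Adj u y
  · rw [if_pos h]
    have h1 : univ.filter (fun x => H.Adj u x ∧ f x = t) = insert y (univ.filter (fun x => (H.Adj u x ∧ f x = t) ∧ x ≠ y)) := by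
      ext x
      simp only [mem_filter, mem_univ, true_and, mem_insert]
      constructor
      · intro hx
        by_cases hxy : x = y
        · exact Or.inl hxy
        · exact Or.inr ⟨hx, hxy⟩
      · rintro (hx | hx)
        · rw [hx]; exact ⟨h, hy⟩
        · exact hx.1
    rw [h1, card_insert_of_notMem]
    simp
  · rw [if_neg h, add_zero]
    congr 1
    ext x
    simp only [mem_filter, mem_univ, true_and]
    constructor
    · intro hx
      refine ⟨hx, ?_⟩
      rintro rfl
      exact h hx.1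
    · exact fun hx => hx.1

open Classical in
theorem cnt1_agree {n : ℕ} {ι : Type} (f : Fin n → ι) (G G' : SimpleGraph (Fin n)) (hG : Equi G f) (hG' : Equi G' f)
    (u w : Fin n) (huw : f u = f w) (t : ι) (y : Fin n) (hy : f y = t)
    (h1 : ∀ x, f x = t → (G.Adj w x ↔ G'.Adj w x)) (h2 : ∀ x, f x = t → x ≠ y → (G.Adj u x ↔ G'.Adj u x)) :
    G.Adj u y ↔ G'.Adj u y := by
  have e1 := hG u w huw t
  have e2 := hG' u w huw t
  have e3 : univ.filter (fun x => G.Adj w x ∧ f x = t) = univ.filter (fun x => G'.Adj w x ∧ f x = t) := by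
    ext x
    simp only [mem_filter, mem_univ, true_and]
    constructor
    · exact fun hx => ⟨(h1 x hx.2).1 hx.1, hx.2⟩
    · exact fun hx => ⟨(h1 x hx.2).2 hx.1, hx.2⟩
  have e4 : univ.filter (fun x => (G.Adj u x ∧ f x = t) ∧ x ≠ y) = univ.filter (fun x => (G'.Adj u x ∧ f x = t) ∧ x ≠ y) := by
    ext x
    simp only [mem_filter, mem_univ, true_and]
    constructor
    · exact fun hx => ⟨⟨(h2 x hx.1.2 hx.2).1 hx.1.1, hx.1.2⟩, hx.2⟩
    · exact fun hx => ⟨⟨(h2 x hx.1.2 hx.2).2 hx.1.1, hx.1.2⟩, hx.2⟩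
  rw [cnt1_key f G u y t hy] at e1
  rw [cnt1_key f G' u y t hy, ← e3, ← e1, ← e4] at e2
  by_cases a : G.Adj u y <;> by_cases b : G'.Adj u y
  · exact ⟨fun _ => b, fun _ => a⟩
  · rw [if_neg b, if_pos a] at e2
    omega
  · rw [if_pos b, if_neg a] at e2
    omega
  · exact ⟨fun h => absurd h a, fun h => absurd h b⟩

open Classical in
theorem cnt1_reps {n : ℕ} {ι : Type} (f : Fin n → ι) (hn : 0 < n) : ∃ r s : ι → Fin n, ∀ t ∈ univ.image f,
    f (r t) = t ∧ f (s t) = t ∧ (2 ≤ (univ.filter (fun u => f u = t)).card → s t ≠ r t) ∧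
      (¬ 2 ≤ (univ.filter (fun u => f u = t)).card → s t = r t ∧ ∀ x, f x = t → x = s t) := by
  have h : ∀ t : ι, ∃ p : Fin n × Fin n, t ∈ univ.image f → f p.1 = t ∧ f p.2 = t ∧ (2 ≤ (univ.filter (fun u => f u = t)).card → p.2 ≠ p.1) ∧
      (¬ 2 ≤ (univ.filter (fun u => f u = t)).card → p.2 = p.1 ∧ ∀ x, f x = t → x = p.2) := by
    intro t
    by_cases ht : t ∈ univ.image f
    · obtain ⟨a, -, ha⟩ := mem_image.1 ht
      by_cases hc : 2 ≤ (univ.filter (fun u => f u = t)).card
      · obtain ⟨x, hx, y, hy, hxy⟩ := one_lt_card.1 (show 1 < (univ.filter (fun u => f u = t)).card from hc)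
        refine ⟨(x, y), fun _ => ⟨(mem_filter.1 hx).2, (mem_filter.1 hy).2, fun _ => hxy.symm, fun h => absurd hc h⟩⟩
      · refine ⟨(a, a), fun _ => ⟨ha, ha, fun h => absurd h hc, fun _ => ⟨rfl, fun x hx => ?_⟩⟩⟩
        by_contra hne
        exact hc (one_lt_card.2 ⟨x, mem_filter.2 ⟨mem_univ _, hx⟩, a, mem_filter.2 ⟨mem_univ _, ha⟩, hne⟩)
    · exact ⟨(⟨0, hn⟩, ⟨0, hn⟩), fun h => absurd h ht⟩
  choose p hp using h
  exact ⟨fun t => (p t).1, fun t => (p t).2, fun t ht => hp t ht⟩

open Classical in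
theorem count_equi {n : ℕ} {ι : Type} (f : Fin n → ι) (k k2 : ℕ)
    (hk : (univ.image f).card = k)
    (hk2 : ((univ.image f).filter (fun t => 2 ≤ (univ.filter (fun u => f u = t)).card)).card = k2) :
    (univ.filter (fun G : SimpleGraph (Fin n) => Equi G f)).card * 2 ^ (k * (n - k - k2) + k2.choose 2 + k2 * (k - k2)) ≤ 2 ^ (n.choose 2) := by
  rcases Nat.eq_zero_or_pos n with hn | hn
  · subst hn
    have h1 : (univ.image f).card = 0 := by simp
    have h2 : ((univ.image f).filter (fun t => 2 ≤ (univ.filter (fun u => f u = t)).card)).card = 0 := by simp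
    have hk0 : k = 0 := by rw [← hk]; exact h1
    have hk20 : k2 = 0 := by rw [← hk2]; exact h2
    subst hk0 hk20
    have h3 : (univ.filter (fun G : SimpleGraph (Fin 0) => Equi G f)).card ≤ 1 := by
      apply Finset.card_le_one.2
      intro G _ G' _
      exact Subsingleton.elim G G'
    simpa using h3
  obtain ⟨rr, ss, hrs⟩ := cnt1_reps f hn
  set img := univ.image f with himg
  set Big := img.filter (fun t => 2 ≤ (univ.filter (fun u => f u = t)).card) with hBig
  set Small := img.filter (fun t => ¬ 2 ≤ (univ.filter (fun u => f u = t)).card) with hSmall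
  have himg_mem : ∀ u, f u ∈ img := fun u => mem_image_of_mem f (mem_univ u)
  have hBs : ∀ t ∈ Big, t ∈ img := fun t ht => (mem_filter.1 ht).1
  have hSs : ∀ t ∈ Small, t ∈ img := fun t ht => (mem_filter.1 ht).1
  have hne : ∀ t ∈ Big, ss t ≠ rr t := fun t ht => (hrs t (hBs t ht)).2.2.1 (mem_filter.1 ht).2
  have hfr : ∀ t ∈ img, f (rr t) = t := fun t ht => (hrs t ht).1
  have hfs : ∀ t ∈ img, f (ss t) = t := fun t ht => (hrs t ht).2.1
  have hsmall : ∀ t ∈ img, t ∉ Big → ss t = rr t ∧ ∀ x, f x = t → x = ss t := by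
    intro t ht hnb
    exact (hrs t ht).2.2.2 fun h => hnb (mem_filter.2 ⟨ht, h⟩)
  have hinj : Set.InjOn ss img := fun t ht t' ht' h => by
    rw [← hfs t ht, ← hfs t' ht', h]
  have hinjr : Set.InjOn rr img := fun t ht t' ht' h => by
    rw [← hfr t ht, ← hfr t' ht', h]
  set U := univ.filter (fun u : Fin n => u ≠ rr (f u) ∧ u ≠ ss (f u)) with hU
  have hUr : ∀ u ∈ U, u ≠ rr (f u) := fun u hu => (mem_filter.1 hu).2.1
  have hUs : ∀ u ∈ U, ∀ t ∈ img, u ≠ ss t := by
    intro u hu t ht h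
    have h1 : f u = t := by rw [h]; exact hfs t ht
    exact (mem_filter.1 hu).2.2 (by rw [h1]; exact h)
  have hUB : ∀ u ∈ U, f u ∈ Big := by
    intro u hu
    by_contra h
    exact hUs u hu (f u) (himg_mem u) ((hsmall (f u) (himg_mem u) h).2 u rfl)
  have hrU : ∀ t ∈ img, rr t ∉ U := by
    intro t ht h
    exact hUr _ h (by rw [hfr t ht])
  have hrs' : ∀ t ∈ Big, ∀ t' ∈ img, rr t ≠ ss t' := by
    intro t ht t' ht' h
    have h1 : t = t' := by rw [← hfr t (hBs t ht), ← hfs t' ht', h]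
    subst h1
    exact hne t ht h.symm
  have hcl : ∀ x : Fin n, x ∈ U ∨ x = ss (f x) ∨ (f x ∈ Big ∧ x = rr (f x)) := by
    intro x
    by_cases h1 : x ∈ U
    · exact Or.inl h1
    · by_cases h2 : x = ss (f x)
      · exact Or.inr (Or.inl h2)
      · right; right
        have h3 : x = rr (f x) := by
          by_contra h3
          exact h1 (mem_filter.2 ⟨mem_univ _, h3, h2⟩)
        refine ⟨?_, h3⟩
        by_contra h4
        exact h2 ((hsmall (f x) (himg_mem x) h4).2 x rfl)
  -- the number of elements of `U`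
  have hcard : U.card + k + k2 = n := by
    have e1 : (univ : Finset (Fin n)) = (U ∪ img.image ss) ∪ Big.image rr := by
      ext x
      simp only [mem_univ, mem_union, mem_image, true_iff]
      rcases hcl x with h | h | ⟨h, h'⟩
      · exact Or.inl (Or.inl h)
      · exact Or.inl (Or.inr ⟨f x, himg_mem x, h.symm⟩)
      · exact Or.inr ⟨f x, h, h'.symm⟩
    have d1 : Disjoint U (img.image ss) := by
      rw [disjoint_left]
      intro x hx hx'
      obtain ⟨t, ht, rfl⟩ := mem_image.1 hx'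
      exact hUs _ hx t ht rfl
    have d2 : Disjoint (U ∪ img.image ss) (Big.image rr) := by
      rw [disjoint_left]
      intro x hx hx'
      obtain ⟨t, ht, rfl⟩ := mem_image.1 hx'
      rcases mem_union.1 hx with h | h
      · exact hrU t (hBs t ht) h
      · obtain ⟨t', ht', h'⟩ := mem_image.1 h
        exact hrs' t ht t' ht' h'.symm
    have e2 : (univ : Finset (Fin n)).card = n := by simp
    rw [e1, card_union_of_disjoint d2, card_union_of_disjoint d1, card_image_of_injOn hinj,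
      card_image_of_injOn (hinjr.mono (by exact fun t ht => hBs t ht)), hk, hk2] at e2
    exact e2
  have hkk : k2 ≤ k := by
    rw [← hk, ← hk2]
    exact card_filter_le _ _
  have hks : Small.card = k - k2 := by
    have := card_filter_add_card_filter_not (s := img) (fun t => 2 ≤ (univ.filter (fun u => f u = t)).card)
    have e : Big.card + Small.card = img.card := this
    rw [hk2, hk] at e
    omega
  -- the set of pairs
  set D1 : Finset (Sym2 (Fin n)) := (U ×ˢ img).image (fun p => s(p.1, ss p.2)) with hD1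
  set D2 : Finset (Sym2 (Fin n)) := (Big.image ss).offDiag.image (fun p => s(p.1, p.2)) with hD2
  set D3 : Finset (Sym2 (Fin n)) := (Big ×ˢ Small).image (fun p => s(ss p.1, ss p.2)) with hD3
  have m1 : ∀ e, e ∈ D1 → ∃ u ∈ U, ∃ t ∈ img, s(u, ss t) = e := by
    intro e he
    obtain ⟨p, hp, h⟩ := mem_image.1 he
    exact ⟨p.1, (mem_product.1 hp).1, p.2, (mem_product.1 hp).2, h⟩
  have m2 : ∀ e, e ∈ D2 → ∃ t ∈ Big, ∃ t' ∈ Big, t ≠ t' ∧ s(ss t, ss t') = e := by
    intro e he
    obtain ⟨p, hp, h⟩ := mem_image.1 he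
    obtain ⟨h1, h2, h3⟩ := mem_offDiag.1 hp
    obtain ⟨t, ht, h1⟩ := mem_image.1 h1
    obtain ⟨t', ht', h2⟩ := mem_image.1 h2
    refine ⟨t, ht, t', ht', ?_, by rw [h1, h2]; exact h⟩
    rintro rfl
    exact h3 (by rw [← h1, ← h2])
  have m3 : ∀ e, e ∈ D3 → ∃ t ∈ Big, ∃ t' ∈ Small, s(ss t, ss t') = e := by
    intro e he
    obtain ⟨p, hp, h⟩ := mem_image.1 he
    exact ⟨p.1, (mem_product.1 hp).1, p.2, (mem_product.1 hp).2, h⟩
  have hBS : ∀ t ∈ Big, ∀ t' ∈ Small, t ≠ t' := by
    intro t ht t' ht' h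
    subst h
    exact (mem_filter.1 ht').2 (mem_filter.1 ht).2
  have c1 : D1.card = k * (n - k - k2) := by
    rw [hD1, card_image_of_injOn, card_product, hk]
    · have : U.card = n - k - k2 := by omega
      rw [this, mul_comm]
    · rintro ⟨u, t⟩ hp ⟨u', t'⟩ hp' h
      obtain ⟨hu, ht⟩ := mem_product.1 hp
      obtain ⟨hu', ht'⟩ := mem_product.1 hp'
      simp only at hu ht hu' ht' h
      rcases Sym2.eq_iff.1 h with ⟨h1, h2⟩ | ⟨h1, h2⟩
      · rw [h1, hinj ht ht' h2]
      · exact absurd h1 (hUs u hu t' ht')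
  have c2 : D2.card = k2.choose 2 := by
    rw [hD2]
    have := Sym2.card_image_offDiag (Big.image ss)
    rw [card_image_of_injOn (hinj.mono (by exact fun t ht => hBs t ht)), hk2] at this
    exact this
  have c3 : D3.card = k2 * (k - k2) := by
    rw [hD3, card_image_of_injOn, card_product, hk2, hks]
    rintro ⟨t, u⟩ hp ⟨t', u'⟩ hp' h
    obtain ⟨ht, hu⟩ := mem_product.1 hp
    obtain ⟨ht', hu'⟩ := mem_product.1 hp'
    simp only at hu ht hu' ht' h
    rcases Sym2.eq_iff.1 h with ⟨h1, h2⟩ | ⟨h1, h2⟩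
    · rw [hinj (hBs _ ht) (hBs _ ht') h1, hinj (hSs _ hu) (hSs _ hu') h2]
    · exact absurd (hinj (hBs _ ht) (hSs _ hu') h1) (hBS _ ht _ hu')
  have d12 : Disjoint D1 D2 := by
    rw [disjoint_left]
    intro e he he'
    obtain ⟨u, hu, t, ht, h⟩ := m1 e he
    obtain ⟨a, ha, b, hb, -, h'⟩ := m2 e he'
    rw [← h'] at h
    rcases Sym2.eq_iff.1 h with ⟨h1, -⟩ | ⟨h1, -⟩
    · exact hUs u hu a (hBs a ha) h1
    · exact hUs u hu b (hBs b hb) h1
  have d13 : Disjoint D1 D3 := by
    rw [disjoint_left]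
    intro e he he'
    obtain ⟨u, hu, t, ht, h⟩ := m1 e he
    obtain ⟨a, ha, b, hb, h'⟩ := m3 e he'
    rw [← h'] at h
    rcases Sym2.eq_iff.1 h with ⟨h1, -⟩ | ⟨h1, -⟩
    · exact hUs u hu a (hBs a ha) h1
    · exact hUs u hu b (hSs b hb) h1
  have d23 : Disjoint D2 D3 := by
    rw [disjoint_left]
    intro e he he'
    obtain ⟨u, hu, t, ht, -, h⟩ := m2 e he
    obtain ⟨a, ha, b, hb, h'⟩ := m3 e he'
    rw [← h'] at h
    rcases Sym2.eq_iff.1 h with ⟨-, h1⟩ | ⟨h1, -⟩
    · exact hBS t ht b hb (hinj (hBs t ht) (hSs b hb) h1)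
    · exact hBS u hu b hb (hinj (hBs u hu) (hSs b hb) h1)
  set D := (D1 ∪ D2) ∪ D3 with hD
  have hDc : D.card = k * (n - k - k2) + k2.choose 2 + k2 * (k - k2) := by
    rw [hD, card_union_of_disjoint (disjoint_union_left.2 ⟨d13, d23⟩), card_union_of_disjoint d12, c1, c2, c3]
  -- endpoints
  have hend : ∀ a b, s(a, b) ∈ D → (a ∈ U ∨ ∃ t ∈ img, a = ss t) ∧ (b ∈ U ∨ ∃ t ∈ img, b = ss t) := by
    intro a b h
    rcases mem_union.1 h with h | h
    · rcases mem_union.1 h with h | h
      · obtain ⟨u, hu, t, ht, h⟩ := m1 _ h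
        rcases Sym2.eq_iff.1 h with ⟨h1, h2⟩ | ⟨h1, h2⟩
        · exact ⟨Or.inl (h1 ▸ hu), Or.inr ⟨t, ht, h2.symm⟩⟩
        · exact ⟨Or.inr ⟨t, ht, h2.symm⟩, Or.inl (h1 ▸ hu)⟩
      · obtain ⟨u, hu, t, ht, -, h⟩ := m2 _ h
        rcases Sym2.eq_iff.1 h with ⟨h1, h2⟩ | ⟨h1, h2⟩
        · exact ⟨Or.inr ⟨u, hBs u hu, h1.symm⟩, Or.inr ⟨t, hBs t ht, h2.symm⟩⟩
        · exact ⟨Or.inr ⟨t, hBs t ht, h2.symm⟩, Or.inr ⟨u, hBs u hu, h1.symm⟩⟩
    · obtain ⟨u, hu, t, ht, h⟩ := m3 _ h
      rcases Sym2.eq_iff.1 h with ⟨h1, h2⟩ | ⟨h1, h2⟩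
      · exact ⟨Or.inr ⟨u, hBs u hu, h1.symm⟩, Or.inr ⟨t, hSs t ht, h2.symm⟩⟩
      · exact ⟨Or.inr ⟨t, hSs t ht, h2.symm⟩, Or.inr ⟨u, hBs u hu, h1.symm⟩⟩
  have hrD : ∀ t ∈ Big, ∀ x, s(rr t, x) ∉ D := by
    intro t ht x h
    rcases (hend _ _ h).1 with h1 | ⟨t', ht', h1⟩
    · exact hrU t (hBs t ht) h1
    · exact hrs' t ht t' ht' h1
  have hUD : ∀ u ∈ U, ∀ x, s(u, x) ∈ D → ∃ t ∈ img, x = ss t := by
    intro u hu x h
    rcases mem_union.1 h with h | h
    · rcases mem_union.1 h with h | h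
      · obtain ⟨u', hu', t, ht, h⟩ := m1 _ h
        rcases Sym2.eq_iff.1 h with ⟨h1, h2⟩ | ⟨h1, h2⟩
        · exact ⟨t, ht, h2.symm⟩
        · exact absurd h2.symm (hUs u hu t ht)
      · obtain ⟨u', hu', t, ht, -, h⟩ := m2 _ h
        rcases Sym2.eq_iff.1 h with ⟨h1, h2⟩ | ⟨h1, h2⟩
        · exact ⟨t, hBs t ht, h2.symm⟩
        · exact absurd h2.symm (hUs u hu t (hBs t ht))
    · obtain ⟨u', hu', t, ht, h⟩ := m3 _ h
      rcases Sym2.eq_iff.1 h with ⟨h1, h2⟩ | ⟨h1, h2⟩
      · exact ⟨t, hSs t ht, h2.symm⟩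
      · exact absurd h2.symm (hUs u hu t (hSs t ht))
  -- the main claim
  have hmain : ∀ G G' : SimpleGraph (Fin n), Equi G f → Equi G' f → (∀ a b, s(a, b) ∉ D → (G.Adj a b ↔ G'.Adj a b)) → G = G' := by
    intro G G' hG hG' H
    have stepA : ∀ u ∈ U, ∀ t ∈ img, (G.Adj u (ss t) ↔ G'.Adj u (ss t)) := by
      intro u hu t ht
      refine cnt1_agree f G G' hG hG' u (rr (f u)) (hfr (f u) (himg_mem u)).symm t (ss t) (hfs t ht) ?_ ?_
      · intro x _
        exact H _ _ (hrD (f u) (hUB u hu) x)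
      · intro x hx hxt
        apply H
        intro h
        obtain ⟨t', ht', h'⟩ := hUD u hu x h
        have : t' = t := by rw [← hx, h', hfs t' ht']
        exact hxt (by rw [h', this])
    have stepC : ∀ t ∈ Big, ∀ t' ∈ img, t' ≠ t → (G.Adj (ss t) (ss t') ↔ G'.Adj (ss t) (ss t')) := by
      intro t ht t' ht' htt
      refine cnt1_agree f G G' hG hG' (ss t) (rr t) (by rw [hfs t (hBs t ht), hfr t (hBs t ht)]) t' (ss t') (hfs t' ht') ?_ ?_
      · intro x _
        exact H _ _ (hrD t ht x)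
      · intro x hx hxt
        rcases hcl x with h | h | ⟨h, h'⟩
        · rw [G.adj_comm, G'.adj_comm]
          exact stepA x h t (hBs t ht)
        · exact absurd (by rw [h, hx]) hxt
        · apply H
          intro hd
          rw [Sym2.eq_swap, h'] at hd
          exact hrD (f x) h _ hd
    ext a b
    by_cases hab : s(a, b) ∈ D
    · rcases mem_union.1 hab with h | h
      · rcases mem_union.1 h with h | h
        · obtain ⟨u, hu, t, ht, h⟩ := m1 _ h
          rcases Sym2.eq_iff.1 h with ⟨h1, h2⟩ | ⟨h1, h2⟩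
          · rw [← h1, ← h2]; exact stepA u hu t ht
          · rw [← h1, ← h2, G.adj_comm, G'.adj_comm]; exact stepA u hu t ht
        · obtain ⟨u, hu, t, ht, hne', h⟩ := m2 _ h
          rcases Sym2.eq_iff.1 h with ⟨h1, h2⟩ | ⟨h1, h2⟩
          · rw [← h1, ← h2]; exact stepC u hu t (hBs t ht) hne'.symm
          · rw [← h1, ← h2, G.adj_comm, G'.adj_comm]; exact stepC u hu t (hBs t ht) hne'.symm
      · obtain ⟨u, hu, t, ht, h⟩ := m3 _ h
        rcases Sym2.eq_iff.1 h with ⟨h1, h2⟩ | ⟨h1, h2⟩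
        · rw [← h1, ← h2]; exact stepC u hu t (hSs t ht) (hBS u hu t ht).symm
        · rw [← h1, ← h2, G.adj_comm, G'.adj_comm]; exact stepC u hu t (hSs t ht) (hBS u hu t ht).symm
    · exact H a b hab
  -- counting
  set Ed : Finset (Sym2 (Fin n)) := univ.filter (fun e => ¬ e.IsDiag) with hEd
  have hEc : Ed.card = n.choose 2 := by
    have := Sym2.card_subtype_not_diag (α := Fin n)
    rw [Fintype.card_subtype, Fintype.card_fin] at this
    rw [← this]
  have hDE : D ⊆ Ed := by
    intro e he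
    refine mem_filter.2 ⟨mem_univ _, ?_⟩
    rcases mem_union.1 he with h | h
    · rcases mem_union.1 h with h | h
      · obtain ⟨u, hu, t, ht, h⟩ := m1 _ h
        rw [← h, Sym2.mk_isDiag_iff]
        exact hUs u hu t ht
      · obtain ⟨u, hu, t, ht, hne', h⟩ := m2 _ h
        rw [← h, Sym2.mk_isDiag_iff]
        exact fun h' => hne' (hinj (hBs u hu) (hBs t ht) h')
    · obtain ⟨u, hu, t, ht, h⟩ := m3 _ h
      rw [← h, Sym2.mk_isDiag_iff]
      exact fun h' => hBS u hu t ht (hinj (hBs u hu) (hSs t ht) h')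
  let ed : SimpleGraph (Fin n) → Finset (Sym2 (Fin n)) := fun G => univ.filter (fun e => e ∈ G.edgeSet)
  have hed : ∀ G : SimpleGraph (Fin n), ed G ⊆ Ed := by
    intro G e he
    exact mem_filter.2 ⟨mem_univ _, G.not_isDiag_of_mem_edgeSet (mem_filter.1 he).2⟩
  have hcount : ((univ.filter (fun G : SimpleGraph (Fin n) => Equi G f)) ×ˢ D.powerset).card ≤ Ed.powerset.card := by
    apply card_le_card_of_injOn (fun p => (ed p.1 \ D) ∪ p.2)
    · rintro ⟨G, S⟩ hp
      obtain ⟨-, hS⟩ := mem_product.1 hp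
      simp only [mem_powerset] at hS
      simp only [coe_powerset, Set.mem_preimage, Set.mem_powerset_iff, coe_subset]
      exact union_subset (sdiff_subset.trans (hed G)) (hS.trans hDE)
    · rintro ⟨G, S⟩ hp ⟨G', S'⟩ hp' h
      obtain ⟨hG, hS⟩ := mem_product.1 hp
      obtain ⟨hG', hS'⟩ := mem_product.1 hp'
      simp only [mem_powerset, mem_filter, mem_univ, true_and] at hG hS hG' hS' h
      have key : ∀ e, (e ∈ ed G ∧ e ∉ D) ∨ e ∈ S ↔ (e ∈ ed G' ∧ e ∉ D) ∨ e ∈ S' := by
        intro e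
        have := congrArg (fun T : Finset (Sym2 (Fin n)) => e ∈ T) h
        simp only [mem_union, mem_sdiff] at this
        exact iff_of_eq this
      have hSS : S = S' := by
        ext e
        constructor
        · intro he
          rcases (key e).1 (Or.inr he) with h1 | h1
          · exact absurd (hS he) h1.2
          · exact h1
        · intro he
          rcases (key e).2 (Or.inr he) with h1 | h1
          · exact absurd (hS' he) h1.2
          · exact h1
      have hGG : G = G' := by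
        apply hmain G G' hG hG'
        intro a b hab
        have e1 : ∀ H : SimpleGraph (Fin n), s(a, b) ∈ ed H ↔ H.Adj a b := by
          intro H
          show s(a, b) ∈ univ.filter (fun e => e ∈ H.edgeSet) ↔ H.Adj a b
          rw [mem_filter]
          simp
        rw [← e1, ← e1]
        constructor
        · intro he
          rcases (key _).1 (Or.inl ⟨he, hab⟩) with h1 | h1
          · exact h1.1
          · exact absurd (hS' h1) hab
        · intro he
          rcases (key _).2 (Or.inl ⟨he, hab⟩) with h1 | h1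
          · exact h1.1
          · exact absurd (hS h1) hab
      rw [hSS, hGG]
  rw [card_product, card_powerset, card_powerset, hDc, hEc] at hcount
  exact hcount

end Pool.Agent.QAOA
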