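import Pool.Agent.Lib_MP_debdb1_mp.Count1

/-!
# Piece CNT2: lower bounds for the exponent of `count_equi`
-/

set_option autoImplicit false

namespace Pool.Agent.QAOA

open Finset

open Classical in
/-- number of classes plus number of classes with at least two elements -/
private theorem cnt2_le {n : ℕ} {ι : Type} (f : Fin n → ι) :
    (univ.image f).card + ((univ.image f).filter (fun t => 2 ≤ (univ.filter (fun u => f u = t)).card)).card ≤ n := by
  have h1 : (univ : Finset (Fin n)).card = ∑ b ∈ univ.image f, (univ.filter (fun u => f u = b)).card :=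
    card_eq_sum_card_image f univ
  rw [card_univ, Fintype.card_fin] at h1
  have h2 : (univ.image f).card + ((univ.image f).filter (fun t => 2 ≤ (univ.filter (fun u => f u = t)).card)).card =
      ∑ b ∈ univ.image f, (1 + if 2 ≤ (univ.filter (fun u => f u = b)).card then 1 else 0) := by
    rw [sum_add_distrib, sum_const, smul_eq_mul, mul_one, card_filter]
  have h3 : ∑ b ∈ univ.image f, (1 + if 2 ≤ (univ.filter (fun u => f u = b)).card then 1 else 0) ≤
      ∑ b ∈ univ.image f, (univ.filter (fun u => f u = b)).card := by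
    refine sum_le_sum fun b hb => ?_
    obtain ⟨a, -, ha⟩ := mem_image.1 hb
    have h4 : 0 < (univ.filter (fun u => f u = b)).card := card_pos.2 ⟨a, mem_filter.2 ⟨mem_univ _, ha⟩⟩
    split_ifs with h5
    · omega
    · omega
  omega

private theorem cnt2_exp (n k k2 : ℕ) (h1 : k + k2 ≤ n) (h2 : k2 ≤ k) :
    2 * (k * (n - k - k2) + k2.choose 2 + k2 * (k - k2)) + k2 * (k2 + 1) = 2 * (n - k) * k := by
  obtain ⟨a, rfl⟩ : ∃ a, k = k2 + a := ⟨k - k2, by omega⟩
  obtain ⟨b, rfl⟩ : ∃ b, n = k2 + a + k2 + b := ⟨n - (k2 + a) - k2, by omega⟩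
  have e1 : k2 + a + k2 + b - (k2 + a) - k2 = b := by omega
  have e2 : k2 + a + k2 + b - (k2 + a) = k2 + b := by omega
  have e3 : k2 + a - k2 = a := by omega
  have e4 : 2 * k2.choose 2 + k2 = k2 * k2 := by
    have h := Nat.choose_two_right k2
    have h5 : Even (k2 * (k2 - 1)) := Nat.even_mul_pred_self k2
    have h6 : 2 * k2.choose 2 = k2 * (k2 - 1) := by
      rw [h]
      exact Nat.mul_div_cancel' (even_iff_two_dvd.1 h5)
    rw [h6]
    rcases Nat.eq_zero_or_pos k2 with h7 | h7
    · subst h7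
      rfl
    · obtain ⟨c, rfl⟩ : ∃ c, k2 = c + 1 := ⟨k2 - 1, by omega⟩
      rw [Nat.add_sub_cancel]
      ring
  rw [e1, e2, e3]
  nlinarith [e4]

open Classical in
/-- many classes: `t = n - k` with `2 t ≤ n`. (`k2 ≤ t`: every class with two elements has an element different from a chosen
representative. With `e = k * (n - k - k2) + choose k2 2 + k2 * (k - k2)` one has
`2 e = 2 t k - k2 (k2 + 1) ≥ 2 t (n - t) - t (t + 1)`, so `4 e ≥ t * (4 n - 6 t - 2) ≥ t (n - 2)`.) -/
theorem count_many {n : ℕ} {ι : Type} (f : Fin n → ι) (t : ℕ) (ht : (univ.image f).card + t = n) (h2 : 2 * t ≤ n) :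
    ∃ e : ℕ, t * (n - 2) ≤ 4 * e ∧ (univ.filter (fun G : SimpleGraph (Fin n) => Equi G f)).card * 2 ^ e ≤ 2 ^ (n.choose 2) := by
  have hc := count_equi f _ _ rfl rfl
  have hle := cnt2_le f
  have hfl : ((univ.image f).filter (fun t => 2 ≤ (univ.filter (fun u => f u = t)).card)).card ≤ (univ.image f).card :=
    card_filter_le _ _
  have hex := cnt2_exp n _ _ hle hfl
  generalize (univ.image f).card = k at *
  generalize ((univ.image f).filter (fun t => 2 ≤ (univ.filter (fun u => f u = t)).card)).card = k2 at *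
  generalize k * (n - k - k2) + k2.choose 2 + k2 * (k - k2) = e at hc hex
  refine ⟨e, ?_, hc⟩
  have h3 : n - k = t := by omega
  rw [h3] at hex
  have h4 : k2 ≤ t := by omega
  have h5 : k2 * (k2 + 1) ≤ t * (t + 1) := Nat.mul_le_mul h4 (by omega)
  have h6 : t * (n - 2) + 2 * (t * (t + 1)) ≤ 2 * (2 * t * k) := by
    rcases Nat.eq_zero_or_pos t with h7 | h7
    · subst h7
      simp
    · obtain ⟨m, rfl⟩ : ∃ m, n = m + 2 := ⟨n - 2, by omega⟩
      rw [Nat.add_sub_cancel]
      have h8 : m + 2 * (t + 1) ≤ 4 * k := by omega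
      calc t * m + 2 * (t * (t + 1)) = t * (m + 2 * (t + 1)) := by ring
        _ ≤ t * (4 * k) := Nat.mul_le_mul_left _ h8
        _ = 2 * (2 * t * k) := by ring
  generalize k2 * (k2 + 1) = A at *
  generalize t * (t + 1) = B at *
  generalize 2 * t * k = C at *
  generalize t * (n - 2) = D at *
  omega

open Classical in
/-- few classes: `2 k ≤ n`. (`k2 ≤ k`, `2 e = 2 (n - k) k - k2 (k2 + 1) ≥ 2 n k - 3 k ^ 2 - k`.) -/
theorem count_few {n : ℕ} {ι : Type} (f : Fin n → ι) (k : ℕ) (hk : (univ.image f).card = k) (h2 : 2 * k ≤ n) :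
    ∃ e : ℕ, 2 * n * k ≤ 2 * e + 3 * k ^ 2 + k ∧ (univ.filter (fun G : SimpleGraph (Fin n) => Equi G f)).card * 2 ^ e ≤ 2 ^ (n.choose 2) := by
  have hc := count_equi f _ _ rfl rfl
  have hle := cnt2_le f
  have hfl : ((univ.image f).filter (fun t => 2 ≤ (univ.filter (fun u => f u = t)).card)).card ≤ (univ.image f).card :=
    card_filter_le _ _
  have hex := cnt2_exp n _ _ hle hfl
  rw [hk] at hc hle hfl hex
  generalize ((univ.image f).filter (fun t => 2 ≤ (univ.filter (fun u => f u = t)).card)).card = k2 at *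
  generalize k * (n - k - k2) + k2.choose 2 + k2 * (k - k2) = e at hc hex
  refine ⟨e, ?_, hc⟩
  have h5 : k2 * (k2 + 1) ≤ k * (k + 1) := Nat.mul_le_mul hfl (by omega)
  obtain ⟨m, rfl⟩ : ∃ m, n = k + m := ⟨n - k, by omega⟩
  have h6 : k + m - k = m := by omega
  rw [h6] at hex
  nlinarith [hex, h5]

end Pool.Agent.QAOA
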