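import Pool.Agent.Lib_MP_debdb1_mp.Defs

/-!
# Piece CNT3A: counting functions, two numerical bounds
-/

set_option autoImplicit false

namespace Pool.Agent.QAOA

open Finset

/-- the number of functions with `t` non fixed points is at most `(n ^ 2) ^ t`: such a function is the function which maps `(p i).1` to
`(p i).2` and fixes the other points, for some `p : Fin t → Fin n × Fin n` -/
theorem card_nonfixed (n t : ℕ) :
    (univ.filter (fun c : Fin n → Fin n => (univ.filter (fun u => c u ≠ u)).card = t)).card ≤ (n ^ 2) ^ t := by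
  classical
  let F : (Fin t → Fin n × Fin n) → (Fin n → Fin n) := fun p u =>
    if h : ∃ i, (p i).1 = u then (p h.choose).2 else u
  have hsub : (univ.filter (fun c : Fin n → Fin n => (univ.filter (fun u => c u ≠ u)).card = t)) ⊆
      univ.image F := by
    intro c hc
    have hc' : (univ.filter (fun u => c u ≠ u)).card = t := (Finset.mem_filter.1 hc).2
    let e := (univ.filter (fun u => c u ≠ u)).equivFinOfCardEq hc'
    rw [Finset.mem_image]
    refine ⟨fun i => ((e.symm i : Fin n), c (e.symm i)), Finset.mem_univ _, ?_⟩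
    funext u
    simp only [F]
    split_ifs with h
    · have h1 := h.choose_spec
      exact congrArg c h1
    · by_contra hne
      apply h
      have hu : u ∈ univ.filter (fun u => c u ≠ u) := by
        rw [Finset.mem_filter]
        exact ⟨Finset.mem_univ _, fun h2 => hne h2.symm⟩
      exact ⟨e ⟨u, hu⟩, by rw [Equiv.symm_apply_apply]⟩
  refine (Finset.card_le_card hsub).trans (Finset.card_image_le.trans ?_)
  rw [Finset.card_univ, Fintype.card_fun, Fintype.card_prod, Fintype.card_fin, Fintype.card_fin, sq]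

/-- `n ^ 24 * 16 ≤ 2 ^ n` for `n ≥ 256` (induction, `(n + 1) ^ 24 ≤ 2 n ^ 24`) -/
theorem pow_bound (n : ℕ) (hn : 256 ≤ n) : n ^ 24 * 16 ≤ 2 ^ n := by
  induction n, hn using Nat.le_induction with
  | base => norm_num
  | succ n hn ih =>
    have h1 : 256 * (n + 1) ≤ 257 * n := by omega
    have h2 : (256 * (n + 1)) ^ 24 ≤ (257 * n) ^ 24 := Nat.pow_le_pow_left h1 24
    rw [mul_pow, mul_pow] at h2
    have h3 : 257 ^ 24 * n ^ 24 ≤ 256 ^ 24 * (2 * n ^ 24) := by
      have : 257 ^ 24 ≤ 256 ^ 24 * 2 := by norm_num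
      calc 257 ^ 24 * n ^ 24 ≤ (256 ^ 24 * 2) * n ^ 24 := Nat.mul_le_mul_right _ this
        _ = 256 ^ 24 * (2 * n ^ 24) := by ring
    have h4 : (n + 1) ^ 24 ≤ 2 * n ^ 24 :=
      Nat.le_of_mul_le_mul_left (h2.trans h3) (by positivity)
    calc (n + 1) ^ 24 * 16 ≤ (2 * n ^ 24) * 16 := Nat.mul_le_mul_right _ h4
      _ = 2 * (n ^ 24 * 16) := by ring
      _ ≤ 2 * 2 ^ n := Nat.mul_le_mul_left _ ih
      _ = 2 ^ (n + 1) := by ring

/-- `k ^ 4 * 2 ^ 8 ≤ 2 ^ k` for `k ≥ 32` -/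
theorem pow_bound4 (k : ℕ) (hk : 32 ≤ k) : k ^ 4 * 2 ^ 8 ≤ 2 ^ k := by
  induction k, hk using Nat.le_induction with
  | base => norm_num
  | succ n hn ih =>
    have h1 : 32 * (n + 1) ≤ 33 * n := by omega
    have h2 : (32 * (n + 1)) ^ 4 ≤ (33 * n) ^ 4 := Nat.pow_le_pow_left h1 4
    rw [mul_pow, mul_pow] at h2
    have h3 : 33 ^ 4 * n ^ 4 ≤ 32 ^ 4 * (2 * n ^ 4) := by
      have : 33 ^ 4 ≤ 32 ^ 4 * 2 := by norm_num
      calc 33 ^ 4 * n ^ 4 ≤ (32 ^ 4 * 2) * n ^ 4 := Nat.mul_le_mul_right _ this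
        _ = 32 ^ 4 * (2 * n ^ 4) := by ring
    have h4 : (n + 1) ^ 4 ≤ 2 * n ^ 4 :=
      Nat.le_of_mul_le_mul_left (h2.trans h3) (by positivity)
    calc (n + 1) ^ 4 * 2 ^ 8 ≤ (2 * n ^ 4) * 2 ^ 8 := Nat.mul_le_mul_right _ h4
      _ = 2 * (n ^ 4 * 2 ^ 8) := by ring
      _ ≤ 2 * 2 ^ n := Nat.mul_le_mul_left _ ih
      _ = 2 ^ (n + 1) := by ring

end Pool.Agent.QAOA
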