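import Pool.Agent.Lib_MP_debdb1_mp.Count2
import Pool.Agent.Lib_MP_debdb1_mp.Count3a

/-!
# Piece CNT3C: the union bound for few classes
-/

set_option autoImplicit false

namespace Pool.Agent.QAOA

open Finset

theorem cnt3c_filt {n : ℕ} (p q : Fin n → Prop) {ip : DecidablePred p} {iq : DecidablePred q}
    (h : ∀ x, p x ↔ q x) : (@Finset.filter _ p ip univ).card = (@Finset.filter _ q iq univ).card := by
  refine congrArg Finset.card (Finset.ext fun x => ?_)
  rw [Finset.mem_filter, Finset.mem_filter, h x]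

theorem cnt3c_img {n k : ℕ} (f : Fin n → Fin k) {i1 i2 : DecidableEq (Fin k)} :
    (@Finset.image _ _ i1 f univ).card = (@Finset.image _ _ i2 f univ).card := by
  rw [Subsingleton.elim i1 i2]

/-- a partition with `k` classes is given by a function to `Fin k` -/
theorem cnt3c_fin {n k : ℕ} (G : SimpleGraph (Fin n)) (c : Fin n → Fin n) (hc : Equi G c)
    (hk : (univ.image c).card = k) : ∃ c' : Fin n → Fin k, Equi G c' ∧ (univ.image c').card = k := by
  have e : ↥(univ.image c) ≃ Fin k := Finset.equivFinOfCardEq hk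
  have hmem : ∀ u, c u ∈ univ.image c := fun u => Finset.mem_image_of_mem c (Finset.mem_univ u)
  have hiff : ∀ x y : Fin n, e ⟨c x, hmem x⟩ = e ⟨c y, hmem y⟩ ↔ c x = c y := by
    intro x y
    rw [e.apply_eq_iff_eq, Subtype.mk.injEq]
  refine ⟨fun u => e ⟨c u, hmem u⟩, ?_, ?_⟩
  · intro u w huw t
    have huw' : c u = c w := (hiff u w).1 huw
    have h1 := hc u w huw' (e.symm t : Fin n)
    have h2 : ∀ x : Fin n, (e ⟨c x, hmem x⟩ = t) ↔ (c x = (e.symm t : Fin n)) := by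
      intro x
      rw [← e.eq_symm_apply, Subtype.ext_iff]
    have h5 : ∀ y x : Fin n, (G.Adj y x ∧ (fun u => e ⟨c u, hmem u⟩) x = t) ↔
        (G.Adj y x ∧ c x = (e.symm t : Fin n)) := by
      intro y x
      show (G.Adj y x ∧ e ⟨c x, hmem x⟩ = t) ↔ _
      rw [h2]
    refine (congrArg (fun r => r % 2) (cnt3c_filt _ _ (h5 u))).trans (h1.trans ?_)
    exact (congrArg (fun r => r % 2) (cnt3c_filt _ _ (h5 w))).symm
  · have h3 : univ.image (fun u => e ⟨c u, hmem u⟩) = univ := by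
      rw [Finset.eq_univ_iff_forall]
      intro t
      obtain ⟨u, -, hu⟩ := Finset.mem_image.1 (e.symm t).2
      refine Finset.mem_image.2 ⟨u, Finset.mem_univ u, ?_⟩
      rw [← e.eq_symm_apply, Subtype.ext_iff]
      exact hu
    rw [h3, Finset.card_univ, Fintype.card_fin]

theorem cnt3c_le_pow (k : ℕ) (hk : 1 ≤ k) : k ≤ 2 ^ (k - 1) := by
  obtain ⟨m, rfl⟩ : ∃ m, k = m + 1 := ⟨k - 1, by omega⟩
  have h : m < 2 ^ m := Nat.lt_two_pow_self
  simpa using h

/-- the numerical part -/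
theorem cnt3c_num (n k E T C : ℕ) (hk : 1 ≤ k) (h2 : 2 * k ≤ n) (hE : 2 * E + 3 * k ^ 2 + k = 2 * n * k)
    (hT : T * 2 ^ E ≤ k ^ n * 2 ^ C) : T * 2 ^ n ≤ 2 ^ 1457 * 2 ^ C := by
  have hEpos : 0 < 2 ^ E := by positivity
  rcases le_or_gt k 31 with h31 | h31
  · have h3 : 3 * k ^ 2 + k ≤ 2914 := by nlinarith
    have h4 : k * n ≤ E + 1457 := by
      have e1 : 2 * n * k = 2 * (k * n) := by ring
      omega
    have h5 : k ^ n * 2 ^ n ≤ 2 ^ (k * n) := by
      have h6 := Nat.pow_le_pow_left (cnt3c_le_pow k hk) n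
      calc k ^ n * 2 ^ n ≤ (2 ^ (k - 1)) ^ n * 2 ^ n := Nat.mul_le_mul_right _ h6
        _ = 2 ^ (k * n) := by
          rw [← pow_mul, ← pow_add]
          congr 1
          obtain ⟨m, rfl⟩ : ∃ m, k = m + 1 := ⟨k - 1, by omega⟩
          simp only [Nat.add_sub_cancel]
          ring
    have h7 : 2 ^ (k * n) ≤ 2 ^ E * 2 ^ 1457 := by
      rw [← pow_add]
      exact Nat.pow_le_pow_right (by norm_num) h4
    refine Nat.le_of_mul_le_mul_left ?_ hEpos
    calc 2 ^ E * (T * 2 ^ n) = (T * 2 ^ E) * 2 ^ n := by ring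
      _ ≤ (k ^ n * 2 ^ C) * 2 ^ n := Nat.mul_le_mul_right _ hT
      _ = (k ^ n * 2 ^ n) * 2 ^ C := by ring
      _ ≤ (2 ^ E * 2 ^ 1457) * 2 ^ C := Nat.mul_le_mul_right _ (h5.trans h7)
      _ = 2 ^ E * (2 ^ 1457 * 2 ^ C) := by ring
  · have h3 := Nat.pow_le_pow_left (pow_bound4 k h31) n
    have h4 : k ^ n * 2 ^ n ≤ 2 ^ E := by
      refine (Nat.pow_le_pow_iff_left (n := 4) (by norm_num)).1 ?_
      have h5 : (k ^ n * 2 ^ n) ^ 4 * 2 ^ (4 * n) ≤ 2 ^ (k * n) := by
        calc (k ^ n * 2 ^ n) ^ 4 * 2 ^ (4 * n) = (k ^ 4 * 2 ^ 8) ^ n := by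
              rw [mul_pow, mul_pow, ← pow_mul, ← pow_mul, ← pow_mul, ← pow_mul, mul_assoc, ← pow_add]
              congr 2 <;> ring
          _ ≤ (2 ^ k) ^ n := h3
          _ = 2 ^ (k * n) := by rw [← pow_mul]
      have h6 : k * n ≤ 4 * E + 4 * n := by
        nlinarith
      have h7 : 2 ^ (k * n) ≤ (2 ^ E) ^ 4 * 2 ^ (4 * n) := by
        rw [← pow_mul, ← pow_add]
        refine Nat.pow_le_pow_right (by norm_num) ?_
        omega
      exact Nat.le_of_mul_le_mul_right (h5.trans h7) (by positivity)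
    have h8 : T * 2 ^ n ≤ 2 ^ C := by
      refine Nat.le_of_mul_le_mul_left ?_ hEpos
      calc 2 ^ E * (T * 2 ^ n) = (T * 2 ^ E) * 2 ^ n := by ring
        _ ≤ (k ^ n * 2 ^ C) * 2 ^ n := Nat.mul_le_mul_right _ hT
        _ = (k ^ n * 2 ^ n) * 2 ^ C := by ring
        _ ≤ 2 ^ E * 2 ^ C := Nat.mul_le_mul_right _ h4
    refine h8.trans ?_
    exact Nat.le_mul_of_pos_left _ (by positivity)

open Classical in
/-- partitions with `k` classes, `1 ≤ k`, `2 k ≤ n`. Such a partition is given by a surjective function `f : Fin n → Fin k`; there are at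
most `k ^ n`. With `count_few`: the proportion is at most `k ^ n 2 ^ (-e)`, `2 e ≥ 2 n k - 3 k ^ 2 - k`.
For `k ≤ 31`: `k ≤ 2 ^ (k - 1)`, so `k ^ n * 2 ^ n ≤ 2 ^ (k n)`, and `(3 k ^ 2 + k) / 2 ≤ 1457`. For `k ≥ 32`: `4 e ≥ k n - 2 k ≥ k n - n`
(as `2 k ≤ n`), `(k ^ n) ^ 4 * 2 ^ (8 n) ≤ 2 ^ (k n)` by `pow_bound4`, so the fourth power of `k ^ n * 2 ^ n` is at most `2 ^ (k n - 4 n)`. -/
theorem union_few (n k : ℕ) (hk : 1 ≤ k) (h2 : 2 * k ≤ n) :
    (univ.filter (fun G : SimpleGraph (Fin n) => ∃ c : Fin n → Fin n, Equi G c ∧ (univ.image c).card = k)).card * 2 ^ n ≤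
      2 ^ 1457 * 2 ^ (n.choose 2) := by
  obtain ⟨E, hE⟩ : ∃ E : ℕ, 2 * E + 3 * k ^ 2 + k = 2 * n * k := by
    have h3 : 3 * k ^ 2 + k ≤ 2 * n * k := by nlinarith
    have h4 : (3 * k ^ 2 + k) % 2 = 0 := by
      obtain ⟨m, hm | hm⟩ := Nat.even_or_odd' k
      · have e1 : 3 * k ^ 2 + k = 2 * (6 * m ^ 2 + m) := by
          rw [hm]
          ring
        omega
      · have e1 : 3 * k ^ 2 + k = 2 * (6 * m ^ 2 + 7 * m + 2) := by
          rw [hm]
          ring
        omega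
    have h5 : 2 * n * k = 2 * (n * k) := by ring
    exact ⟨n * k - (3 * k ^ 2 + k) / 2, by omega⟩
  refine cnt3c_num n k E _ _ hk h2 hE ?_
  have hsub : (univ.filter (fun G : SimpleGraph (Fin n) => ∃ c : Fin n → Fin n, Equi G c ∧ (univ.image c).card = k)) ⊆
      (univ.filter (fun c' : Fin n → Fin k => (univ.image c').card = k)).biUnion
        (fun c' => univ.filter (fun G : SimpleGraph (Fin n) => Equi G c')) := by
    intro G hG
    obtain ⟨c, hc1, hc2⟩ := (Finset.mem_filter.1 hG).2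
    obtain ⟨c', h3, h4⟩ := cnt3c_fin G c hc1 hc2
    rw [Finset.mem_biUnion]
    exact ⟨c', Finset.mem_filter.2 ⟨Finset.mem_univ _, h4⟩, Finset.mem_filter.2 ⟨Finset.mem_univ _, h3⟩⟩
  have hcard := (Finset.card_le_card hsub).trans Finset.card_biUnion_le
  have hone : ∀ c' ∈ univ.filter (fun c' : Fin n → Fin k => (univ.image c').card = k),
      (univ.filter (fun G : SimpleGraph (Fin n) => Equi G c')).card * 2 ^ E ≤ 2 ^ (n.choose 2) := by
    intro c' hc'
    have hck : (univ.image c').card = k := (Finset.mem_filter.1 hc').2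
    have hck' : (@Finset.image _ _ (fun a b => Classical.propDecidable (a = b)) c' univ).card = k :=
      (cnt3c_img c').trans hck
    obtain ⟨e, he1, he2⟩ := count_few c' k hck' h2
    refine le_trans (Nat.mul_le_mul_left _ (Nat.pow_le_pow_right (by norm_num) ?_)) he2
    omega
  calc (univ.filter (fun G : SimpleGraph (Fin n) => ∃ c : Fin n → Fin n, Equi G c ∧ (univ.image c).card = k)).card * 2 ^ E
      ≤ (∑ c' ∈ univ.filter (fun c' : Fin n → Fin k => (univ.image c').card = k),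
          (univ.filter (fun G : SimpleGraph (Fin n) => Equi G c')).card) * 2 ^ E := Nat.mul_le_mul_right _ hcard
    _ = ∑ c' ∈ univ.filter (fun c' : Fin n → Fin k => (univ.image c').card = k),
          (univ.filter (fun G : SimpleGraph (Fin n) => Equi G c')).card * 2 ^ E := Finset.sum_mul _ _ _
    _ ≤ ∑ _c' ∈ univ.filter (fun c' : Fin n → Fin k => (univ.image c').card = k), 2 ^ (n.choose 2) :=
        Finset.sum_le_sum hone
    _ = (univ.filter (fun c' : Fin n → Fin k => (univ.image c').card = k)).card * 2 ^ (n.choose 2) := by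
        rw [Finset.sum_const, smul_eq_mul]
    _ ≤ k ^ n * 2 ^ (n.choose 2) := by
        refine Nat.mul_le_mul_right _ ?_
        refine (Finset.card_filter_le _ _).trans ?_
        simp

end Pool.Agent.QAOA
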