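import Pool.Agent.Lib_MP_debdb1_mp.Count3b
import Pool.Agent.Lib_MP_debdb1_mp.Count3c

/-!
# Piece CNT3D: the union bound
-/

set_option autoImplicit false

namespace Pool.Agent.QAOA

open Finset

open Classical in
private theorem cnt3d_total (n : ℕ) : (univ : Finset (SimpleGraph (Fin n))).card ≤ 2 ^ (n.choose 2) := by
  have h := count_equi (n := n) (fun u : Fin n => u) n 0
    ((@Finset.card_image_of_injective _ _ _ (fun a b => Classical.propDecidable (a = b)) _ (fun _ _ h => h)).trans (by simp))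
    (by
      rw [Finset.card_eq_zero, Finset.filter_eq_empty_iff]
      intro t _ h2
      have h3 := h2.trans (Finset.card_le_one.mpr (fun a ha b hb => by
        have ha' : a = t := by simpa using ha
        have hb' : b = t := by simpa using hb
        rw [ha', hb']))
      exact absurd h3 (by norm_num))
  have h1 : (univ.filter (fun G : SimpleGraph (Fin n) => Equi G (fun u : Fin n => u))) = univ := by
    refine Finset.filter_true_of_mem fun G _ => ?_
    intro u w huw t
    have huw' : u = w := huw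
    rw [huw']
  rw [h1] at h
  simpa using h

open Classical in
/-- sum over `t` (or `k`) from `1` to `n / 2`, `n * 2 ^ (n / 8) ≤ 2 ^ n`; for `n < 256` the total number of graphs is at most
`2 ^ (n.choose 2)` (this is `count_equi` for an injective `f`, where the exponent is `0`, since an injective `f` is always
equitable; or directly) and `n / 8 ≤ 32` -/
theorem union_all : ∀ n : ℕ,
    (univ.filter (fun G : SimpleGraph (Fin n) => ∃ c : Fin n → Fin n, Equi G c ∧ ¬ Function.Injective c)).card * 2 ^ (n / 8) ≤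
      2 ^ 1458 * 2 ^ (n.choose 2) := by
  intro n
  rcases Nat.lt_or_ge n 256 with hn | hn
  · have h1 : (univ.filter (fun G : SimpleGraph (Fin n) => ∃ c : Fin n → Fin n, Equi G c ∧ ¬ Function.Injective c)).card ≤ 2 ^ (n.choose 2) :=
      (Finset.card_filter_le _ _).trans (cnt3d_total n)
    have h2 : 2 ^ (n / 8) ≤ 2 ^ 1458 := Nat.pow_le_pow_right Nat.two_pos (by omega)
    exact (Nat.mul_le_mul h1 h2).trans (Nat.mul_comm _ _).le
  · set F : ℕ → Finset (SimpleGraph (Fin n)) := fun k =>
      univ.filter (fun G : SimpleGraph (Fin n) => ∃ c : Fin n → Fin n, Equi G c ∧ (univ.image c).card = k) with hF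
    set M : ℕ → Finset (SimpleGraph (Fin n)) := fun t =>
      univ.filter (fun G : SimpleGraph (Fin n) => ∃ c : Fin n → Fin n, Equi G c ∧ (univ.image c).card + t = n) with hM
    have hsub : univ.filter (fun G : SimpleGraph (Fin n) => ∃ c : Fin n → Fin n, Equi G c ∧ ¬ Function.Injective c) ⊆
        (Finset.Icc 1 (n / 2)).biUnion F ∪ (Finset.Icc 1 (n / 2)).biUnion M := by
      intro G hG
      obtain ⟨-, c, hc, hinj⟩ := Finset.mem_filter.mp hG
      have hle : (univ.image c).card ≤ n := by
        have := Finset.card_image_le (s := (univ : Finset (Fin n))) (f := c)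
        simpa using this
      have hne : (univ.image c).card ≠ n := by
        intro he
        apply hinj
        have h1 : (univ.image c).card = (univ : Finset (Fin n)).card := by rw [he]; simp
        have h2 := Finset.card_image_iff.mp h1
        rw [Finset.coe_univ] at h2
        exact Set.injOn_univ.mp h2
      have hpos : 1 ≤ (univ.image c).card := by
        rw [Nat.one_le_iff_ne_zero, Ne, Finset.card_eq_zero]
        intro he
        have hx : c ⟨0, by omega⟩ ∈ univ.image c := Finset.mem_image_of_mem c (Finset.mem_univ _)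
        rw [he] at hx
        exact absurd hx (Finset.notMem_empty _)
      rw [Finset.mem_union]
      rcases Nat.lt_or_ge n (2 * (univ.image c).card) with h2 | h2
      · right
        rw [Finset.mem_biUnion]
        refine ⟨n - (univ.image c).card, ?_, ?_⟩
        · rw [Finset.mem_Icc]; omega
        · refine Finset.mem_filter.mpr ⟨Finset.mem_univ _, c, hc, by omega⟩
      · left
        rw [Finset.mem_biUnion]
        refine ⟨(univ.image c).card, ?_, ?_⟩
        · rw [Finset.mem_Icc]; omega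
        · exact Finset.mem_filter.mpr ⟨Finset.mem_univ _, c, hc, rfl⟩
    have hcard := (Finset.card_le_card hsub).trans (Finset.card_union_le _ _)
    have hcF : ((Finset.Icc 1 (n / 2)).biUnion F).card ≤ ∑ k ∈ Finset.Icc 1 (n / 2), (F k).card := Finset.card_biUnion_le
    have hcM : ((Finset.Icc 1 (n / 2)).biUnion M).card ≤ ∑ k ∈ Finset.Icc 1 (n / 2), (M k).card := Finset.card_biUnion_le
    have hpow : n * 2 ^ (n / 8) ≤ 2 ^ n := by
      have h1 : n / 2 < 2 ^ (n / 2) := Nat.lt_two_pow_self
      have h2 : n ≤ 2 ^ (n / 2 + 1) := by rw [pow_succ]; omega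
      calc n * 2 ^ (n / 8) ≤ 2 ^ (n / 2 + 1) * 2 ^ (n / 8) := Nat.mul_le_mul_right _ h2
        _ = 2 ^ (n / 2 + 1 + n / 8) := (pow_add _ _ _).symm
        _ ≤ 2 ^ n := Nat.pow_le_pow_right (by norm_num) (by omega)
    have hn0 : 0 < n := by omega
    have hcd : (Finset.Icc 1 (n / 2)).card ≤ n := by rw [Nat.card_Icc]; omega
    have hSF : (∑ k ∈ Finset.Icc 1 (n / 2), (F k).card) * 2 ^ (n / 8) ≤ 2 ^ 1457 * 2 ^ (n.choose 2) := by
      have h1 : (∑ k ∈ Finset.Icc 1 (n / 2), (F k).card) * 2 ^ n ≤ n * (2 ^ 1457 * 2 ^ (n.choose 2)) := by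
        rw [Finset.sum_mul]
        calc ∑ k ∈ Finset.Icc 1 (n / 2), (F k).card * 2 ^ n
            ≤ ∑ _k ∈ Finset.Icc 1 (n / 2), (2 ^ 1457 * 2 ^ (n.choose 2)) := by
              refine Finset.sum_le_sum fun k hk => ?_
              rw [Finset.mem_Icc] at hk
              exact union_few n k hk.1 (by omega)
          _ = (Finset.Icc 1 (n / 2)).card * (2 ^ 1457 * 2 ^ (n.choose 2)) := by rw [Finset.sum_const, smul_eq_mul]
          _ ≤ n * (2 ^ 1457 * 2 ^ (n.choose 2)) := Nat.mul_le_mul_right _ hcd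
      have h2 : n * ((∑ k ∈ Finset.Icc 1 (n / 2), (F k).card) * 2 ^ (n / 8)) ≤ n * (2 ^ 1457 * 2 ^ (n.choose 2)) := by
        calc n * ((∑ k ∈ Finset.Icc 1 (n / 2), (F k).card) * 2 ^ (n / 8))
            = (∑ k ∈ Finset.Icc 1 (n / 2), (F k).card) * (n * 2 ^ (n / 8)) := by ring
          _ ≤ (∑ k ∈ Finset.Icc 1 (n / 2), (F k).card) * 2 ^ n := Nat.mul_le_mul_left _ hpow
          _ ≤ _ := h1
      exact Nat.le_of_mul_le_mul_left h2 hn0
    have hSM : (∑ k ∈ Finset.Icc 1 (n / 2), (M k).card) * 2 ^ (n / 8) ≤ 2 ^ (n.choose 2) := by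
      have h2 : n * ((∑ k ∈ Finset.Icc 1 (n / 2), (M k).card) * 2 ^ (n / 8)) ≤ n * 2 ^ (n.choose 2) := by
        calc n * ((∑ k ∈ Finset.Icc 1 (n / 2), (M k).card) * 2 ^ (n / 8))
            = ∑ k ∈ Finset.Icc 1 (n / 2), (M k).card * n * 2 ^ (n / 8) := by
              rw [Finset.sum_mul, Finset.mul_sum]
              refine Finset.sum_congr rfl fun k _ => ?_
              ring
          _ ≤ ∑ _k ∈ Finset.Icc 1 (n / 2), 2 ^ (n.choose 2) := by
              refine Finset.sum_le_sum fun k hk => ?_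
              rw [Finset.mem_Icc] at hk
              exact union_many n k hn hk.1 (by omega)
          _ = (Finset.Icc 1 (n / 2)).card * 2 ^ (n.choose 2) := by rw [Finset.sum_const, smul_eq_mul]
          _ ≤ n * 2 ^ (n.choose 2) := Nat.mul_le_mul_right _ hcd
      exact Nat.le_of_mul_le_mul_left h2 hn0
    have hone : 2 ^ (n.choose 2) ≤ 2 ^ 1457 * 2 ^ (n.choose 2) := Nat.le_mul_of_pos_left _ (Nat.pow_pos (by norm_num))
    calc _ ≤ (∑ k ∈ Finset.Icc 1 (n / 2), (F k).card + ∑ k ∈ Finset.Icc 1 (n / 2), (M k).card) * 2 ^ (n / 8) :=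
          Nat.mul_le_mul_right _ (hcard.trans (Nat.add_le_add hcF hcM))
      _ = (∑ k ∈ Finset.Icc 1 (n / 2), (F k).card) * 2 ^ (n / 8) + (∑ k ∈ Finset.Icc 1 (n / 2), (M k).card) * 2 ^ (n / 8) :=
          Nat.add_mul _ _ _
      _ ≤ 2 ^ 1457 * 2 ^ (n.choose 2) + 2 ^ 1457 * 2 ^ (n.choose 2) := Nat.add_le_add hSF (hSM.trans hone)
      _ = 2 ^ 1458 * 2 ^ (n.choose 2) := by
          rw [← Nat.two_mul, ← Nat.mul_assoc, show (1458 : ℕ) = 1457 + 1 from rfl, pow_succ 2 1457, Nat.mul_comm 2 (2 ^ 1457)]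

end Pool.Agent.QAOA
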