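import Pool.Agent.Lib_MP_debdb1_mp.Count2
import Pool.Agent.Lib_MP_debdb1_mp.Count3a

/-!
# Piece CNT3B: the union bound for many classes
-/

set_option autoImplicit false

namespace Pool.Agent.QAOA

open Finset

theorem card_filter_inst {α : Type*} (s : Finset α) (p : α → Prop) (i1 i2 : DecidablePred p) :
    (@Finset.filter α p i1 s).card = (@Finset.filter α p i2 s).card := by
  have : i1 = i2 := Subsingleton.elim _ _
  subst this
  rfl

theorem card_image_inst {α β : Type*} (s : Finset α) (f : α → β) (i1 i2 : DecidableEq β) :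
    (@Finset.image α β i1 f s).card = (@Finset.image α β i2 f s).card := by
  have : i1 = i2 := Subsingleton.elim _ _
  subst this
  rfl

/-- an equitable partition given by representatives: `c'` maps every vertex to the representative of its class -/
theorem equi_normal {n t : ℕ} (G : SimpleGraph (Fin n)) (c : Fin n → Fin n) (hG : Equi G c) (hc : (univ.image c).card + t = n) :
    ∃ c' : Fin n → Fin n, Equi G c' ∧ (univ.image c').card + t = n ∧ (univ.filter (fun u => c' u ≠ u)).card = t := by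
  classical
  have hs : ∀ x : Fin n, ∃ s : Fin n, x ∈ univ.image c → c s = x := by
    intro x
    by_cases hx : x ∈ univ.image c
    · obtain ⟨s, _, hs⟩ := Finset.mem_image.1 hx
      exact ⟨s, fun _ => hs⟩
    · exact ⟨x, fun h => absurd h hx⟩
  choose s hs using hs
  have hcs : ∀ u, c (s (c u)) = c u := fun u => hs (c u) (Finset.mem_image_of_mem c (Finset.mem_univ u))
  have hinj : ∀ u w, s (c u) = s (c w) → c u = c w := fun u w h => by
    rw [← hcs u, ← hcs w, h]
  have himg : (univ.image (fun u => s (c u))).card = (univ.image c).card := by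
    have h1 : univ.image (fun u => s (c u)) = (univ.image c).image s := by
      rw [Finset.image_image]
      rfl
    rw [h1]
    refine Finset.card_image_of_injOn ?_
    intro x hx y hy hxy
    rw [Finset.mem_coe, Finset.mem_image] at hx hy
    obtain ⟨u, _, rfl⟩ := hx
    obtain ⟨w, _, rfl⟩ := hy
    exact hinj u w hxy
  refine ⟨fun u => s (c u), ?_, by rw [himg]; exact hc, ?_⟩
  · intro u w huw t'
    have h1 := hinj u w huw
    by_cases ht' : ∃ y, s (c y) = t'
    · obtain ⟨y, rfl⟩ := ht'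
      have h3 := hG u w h1 (c y)
      have h2 : ∀ v x : Fin n, (G.Adj v x ∧ s (c x) = s (c y)) ↔ (G.Adj v x ∧ c x = c y) := by
        intro v x
        constructor
        · rintro ⟨a, b⟩
          exact ⟨a, hinj _ _ b⟩
        · rintro ⟨a, b⟩
          exact ⟨a, by rw [b]⟩
      simp only [h2]
      convert h3
    · have h2 : ∀ v x : Fin n, (G.Adj v x ∧ s (c x) = t') ↔ False := by
        intro v x
        constructor
        · rintro ⟨a, b⟩
          exact ht' ⟨x, b⟩
        · exact False.elim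
      simp only [h2]
  · -- the fixed points are the representatives
    have h1 : univ.filter (fun u => s (c u) = u) = univ.image (fun u => s (c u)) := by
      ext x
      simp only [Finset.mem_filter, Finset.mem_univ, true_and, Finset.mem_image]
      constructor
      · intro hx
        exact ⟨x, hx⟩
      · rintro ⟨u, rfl⟩
        rw [hcs]
    have h2 := Finset.card_filter_add_card_filter_not (s := (univ : Finset (Fin n))) (fun u => s (c u) = u)
    rw [h1, himg, Finset.card_univ, Fintype.card_fin] at h2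
    have h3 : (univ.filter (fun u => s (c u) ≠ u)).card = (univ.filter (fun u => ¬ s (c u) = u)).card := rfl
    rw [h3]
    omega

open Classical in
/-- partitions with `n - t` classes, `1 ≤ t`, `2 t ≤ n`. Such a partition is given by a function `c` with `t` non fixed points (`c u` is
the representative of the class of `u`): union bound with `card_nonfixed` and `count_many`. The proportion of these graphs is at most
`n ^ (2 t) 2 ^ (-e)`, the fourth power of `n * n ^ (2 t) * 2 ^ (-e) * 2 ^ (n / 8)` is at most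
`n ^ (4 + 8 t) * 2 ^ (- t (n - 2) + n / 2) ≤ (n ^ 12 * 4 * 2 ^ (-n/2)) ^ t ≤ 1` (`t ≥ 1`), by `pow_bound`. -/
theorem union_many (n t : ℕ) (hn : 256 ≤ n) (ht : 1 ≤ t) (h2 : 2 * t ≤ n) :
    (univ.filter (fun G : SimpleGraph (Fin n) => ∃ c : Fin n → Fin n, Equi G c ∧ (univ.image c).card + t = n)).card * n * 2 ^ (n / 8) ≤
      2 ^ (n.choose 2) := by
  -- the exponent
  set e0 : ℕ := (t * (n - 2) + 3) / 4 with he0
  have he0' : t * (n - 2) ≤ 4 * e0 := by omega
  set Cs : Finset (Fin n → Fin n) := univ.filter (fun c : Fin n → Fin n => (univ.image c).card + t = n ∧ (univ.filter (fun u => c u ≠ u)).card = t) with hCs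
  have hCcard : Cs.card ≤ (n ^ 2) ^ t := by
    refine (Finset.card_le_card ?_).trans (card_nonfixed n t)
    intro c hc
    rw [hCs, Finset.mem_filter] at hc
    rw [Finset.mem_filter]
    exact ⟨Finset.mem_univ _, (card_filter_inst _ _ _ _).trans hc.2.2⟩
  have hsub : (univ.filter (fun G : SimpleGraph (Fin n) => ∃ c : Fin n → Fin n, Equi G c ∧ (univ.image c).card + t = n)) ⊆
      Cs.biUnion (fun c => univ.filter (fun G : SimpleGraph (Fin n) => Equi G c)) := by
    intro G hG
    obtain ⟨c, hc1, hc2⟩ := (Finset.mem_filter.1 hG).2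
    obtain ⟨c', h1, h2, h3⟩ := equi_normal (t := t) G c hc1 ((congrArg (· + t) (card_image_inst _ _ _ _)).trans hc2)
    rw [Finset.mem_biUnion]
    refine ⟨c', ?_, ?_⟩
    · rw [hCs, Finset.mem_filter]
      exact ⟨Finset.mem_univ _, (congrArg (· + t) (card_image_inst _ _ _ _)).trans h2, (card_filter_inst _ _ _ _).trans h3⟩
    · rw [Finset.mem_filter]
      exact ⟨Finset.mem_univ _, h1⟩
  have hone : ∀ c ∈ Cs, (univ.filter (fun G : SimpleGraph (Fin n) => Equi G c)).card * 2 ^ e0 ≤ 2 ^ (n.choose 2) := by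
    intro c hc
    rw [hCs, Finset.mem_filter] at hc
    obtain ⟨e, he, hle⟩ := count_many c t ((congrArg (· + t) (card_image_inst _ _ _ _)).trans hc.2.1) h2
    refine le_trans ?_ hle
    apply Nat.mul_le_mul_left
    apply Nat.pow_le_pow_right (by norm_num)
    omega
  have htot : (univ.filter (fun G : SimpleGraph (Fin n) => ∃ c : Fin n → Fin n, Equi G c ∧ (univ.image c).card + t = n)).card * 2 ^ e0 ≤
      (n ^ 2) ^ t * 2 ^ (n.choose 2) := by
    calc (univ.filter (fun G : SimpleGraph (Fin n) => ∃ c : Fin n → Fin n, Equi G c ∧ (univ.image c).card + t = n)).card * 2 ^ e0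
        ≤ (∑ c ∈ Cs, (univ.filter (fun G : SimpleGraph (Fin n) => Equi G c)).card) * 2 ^ e0 :=
          Nat.mul_le_mul_right _ ((Finset.card_le_card hsub).trans Finset.card_biUnion_le)
      _ = ∑ c ∈ Cs, (univ.filter (fun G : SimpleGraph (Fin n) => Equi G c)).card * 2 ^ e0 := by rw [Finset.sum_mul]
      _ ≤ ∑ _c ∈ Cs, 2 ^ (n.choose 2) := Finset.sum_le_sum hone
      _ = Cs.card * 2 ^ (n.choose 2) := by rw [Finset.sum_const, smul_eq_mul]
      _ ≤ (n ^ 2) ^ t * 2 ^ (n.choose 2) := Nat.mul_le_mul_right _ hCcard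
  -- the numerical inequality
  have hnum : (n ^ 2) ^ t * (n * 2 ^ (n / 8)) ≤ 2 ^ e0 := by
    rw [← Nat.pow_le_pow_iff_left (show (4 : ℕ) ≠ 0 by norm_num)]
    have hn1 : 1 ≤ n := by omega
    have hb := pow_bound n hn
    -- `n ^ 12 * 4 ≤ 2 ^ (n - n / 2)`
    have hb2 : n ^ 12 * 4 ≤ 2 ^ (n - n / 2) := by
      rw [← Nat.pow_le_pow_iff_left (show (2 : ℕ) ≠ 0 by norm_num)]
      calc (n ^ 12 * 4) ^ 2 = n ^ 24 * 16 := by ring
        _ ≤ 2 ^ n := hb
        _ ≤ 2 ^ ((n - n / 2) * 2) := Nat.pow_le_pow_right (by norm_num) (by omega)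
        _ = (2 ^ (n - n / 2)) ^ 2 := by rw [pow_mul]
    have hb3 : n ^ 12 * 2 ^ (n / 2) ≤ 2 ^ (n - 2) := by
      have h4 : n ^ 12 * 2 ^ (n / 2) * 4 ≤ 2 ^ (n - 2) * 4 := by
        calc n ^ 12 * 2 ^ (n / 2) * 4 = (n ^ 12 * 4) * 2 ^ (n / 2) := by ring
          _ ≤ 2 ^ (n - n / 2) * 2 ^ (n / 2) := Nat.mul_le_mul_right _ hb2
          _ = 2 ^ n := by rw [← pow_add]; congr 1; omega
          _ = 2 ^ (n - 2) * 4 := by
            have : n = (n - 2) + 2 := by omega
            conv_lhs => rw [this, pow_add]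
            norm_num
      exact Nat.le_of_mul_le_mul_right h4 (by norm_num)
    calc ((n ^ 2) ^ t * (n * 2 ^ (n / 8))) ^ 4 = n ^ (8 * t + 4) * 2 ^ (4 * (n / 8)) := by
          rw [mul_pow, mul_pow, ← pow_mul, ← pow_mul, ← pow_mul, ← mul_assoc, ← pow_add]
          congr 2 <;> ring
      _ ≤ n ^ (12 * t) * 2 ^ (n / 2 * t) := by
          apply Nat.mul_le_mul
          · exact Nat.pow_le_pow_right hn1 (by omega)
          · apply Nat.pow_le_pow_right (by norm_num)
            calc 4 * (n / 8) ≤ n / 2 := by omega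
              _ = n / 2 * 1 := by ring
              _ ≤ n / 2 * t := Nat.mul_le_mul_left _ ht
      _ = (n ^ 12 * 2 ^ (n / 2)) ^ t := by rw [mul_pow, ← pow_mul, ← pow_mul]
      _ ≤ (2 ^ (n - 2)) ^ t := Nat.pow_le_pow_left hb3 t
      _ = 2 ^ (t * (n - 2)) := by rw [← pow_mul, mul_comm]
      _ ≤ 2 ^ (4 * e0) := Nat.pow_le_pow_right (by norm_num) he0'
      _ = (2 ^ e0) ^ 4 := by rw [← pow_mul, mul_comm]
  -- conclusion
  set N : ℕ := (univ.filter (fun G : SimpleGraph (Fin n) => ∃ c : Fin n → Fin n, Equi G c ∧ (univ.image c).card + t = n)).card with hN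
  have hfin : N * n * 2 ^ (n / 8) * (n ^ 2) ^ t ≤ 2 ^ (n.choose 2) * (n ^ 2) ^ t := by
    calc N * n * 2 ^ (n / 8) * (n ^ 2) ^ t = N * ((n ^ 2) ^ t * (n * 2 ^ (n / 8))) := by ring
      _ ≤ N * 2 ^ e0 := Nat.mul_le_mul_left _ hnum
      _ ≤ (n ^ 2) ^ t * 2 ^ (n.choose 2) := htot
      _ = 2 ^ (n.choose 2) * (n ^ 2) ^ t := by ring
  exact Nat.le_of_mul_le_mul_right hfin (by positivity)

end Pool.Agent.QAOA
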