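import Mathlib

/-!
# MP_debdb1_mp: the MaxCut QAOA Lie algebras (definitions)

`V → Bool` is the computational basis of `(ℂ²)^{⊗ V}` (`false` is the spin `+1`, `true` the spin `-1`).
-/

set_option autoImplicit false

namespace Pool.Agent.QAOA

open Matrix

/-- operators on `(ℂ²)^{⊗ V}`, as matrices in the computational basis -/
abbrev Op (V : Type*) := Matrix (V → Bool) (V → Bool) ℂ

/-- the eigenvalue `±1` of `Z` -/
def sg (b : Bool) : ℂ := if b then -1 else 1

section ops

variable {V : Type*} [Fintype V] [DecidableEq V]

/-- Pauli `Z` at the vertex `j` (tensored with identities) -/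
def pz (j : V) : Op V := Matrix.diagonal (fun x => sg (x j))

/-- Pauli `X` at the vertex `j` (tensored with identities): the entry `(x, y)` is `1` if `y` is `x` with the bit `j`
flipped, and `0` otherwise -/
def px (j : V) : Op V := Matrix.of (fun x y => if y = Function.update x j (!(x j)) then 1 else 0)

open Classical in
/-- the cost operator `H_P = ∑_{ {j,k} ∈ E } Z_j Z_k` (every edge is counted twice in the double sum) -/
noncomputable def HP (G : SimpleGraph V) : Op V := (1 / 2 : ℂ) • ∑ j, ∑ k, if G.Adj j k then pz j * pz k else 0

/-- the mixer `H_M = ∑_j X_j` -/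
def HM (V : Type*) [Fintype V] [DecidableEq V] : Op V := ∑ j : V, px j

/-- the Lie algebra generated by `A` and `B`: the smallest real subspace containing `A` and `B` and closed under commutators -/
noncomputable def gen (A B : Op V) : Submodule ℝ (Op V) :=
  sInf {S : Submodule ℝ (Op V) | A ∈ S ∧ B ∈ S ∧ ∀ M ∈ S, ∀ N ∈ S, M * N - N * M ∈ S}

/-- the full Lie algebra, generated by `i H_P` and `i H_M` -/
noncomputable def gStd (G : SimpleGraph V) : Submodule ℝ (Op V) := gen (Complex.I • HP G) (Complex.I • HM V)

open Classical in
/-- the reduced cost operator at `v`: substitute `Z_v = 1` in `H_P` -/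
noncomputable def HPr (G : SimpleGraph V) (v : V) : Op {w : V // w ≠ v} :=
  HP (G.comap (Subtype.val : {w : V // w ≠ v} → V)) + ∑ w : {w : V // w ≠ v}, if G.Adj v w then pz w else 0

/-- the reduced Lie algebra at `v` -/
noncomputable def gRed (G : SimpleGraph V) (v : V) : Submodule ℝ (Op {w : V // w ≠ v}) :=
  gen (Complex.I • HPr G v) (Complex.I • HM {w : V // w ≠ v})

end ops

section eq

variable {V : Type*} [Fintype V]

open Classical in
/-- the partition of `V` into the fibres of `c` is equitable modulo 2: two vertices of the same class have, for each class,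
the same parity of the number of neighbours in it -/
def Equi {ι : Type*} (G : SimpleGraph V) (c : V → ι) : Prop :=
  ∀ u w, c u = c w → ∀ t, (Finset.univ.filter (fun x => G.Adj u x ∧ c x = t)).card % 2 =
    (Finset.univ.filter (fun x => G.Adj w x ∧ c x = t)).card % 2

/-- no automorphism except the identity -/
def Asymmetric (G : SimpleGraph V) : Prop := ∀ σ : G ≃g G, ∀ v, σ v = v

end eq

end Pool.Agent.QAOA
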