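import Pool.Agent.Lib_MP_debdb1_mp.Defs

/-!
# Piece EMB: if `i X_v` lies in the full Lie algebra then the reduced Lie algebra at `v` has smaller dimension

Paper proof. `Φ : Op {w // w ≠ v} → Op V`, `Φ(M)_{x,y} = M (r x) (r y)` if `x v = y v`, else `0`, where
`r x = fun w => xor (x w) (x v)`. `Φ` is ℝ-linear, injective and multiplicative (a sum over `y` with `y v = x v` is a sum over
`r y`), `Φ(X_w) = X_w`, `Φ(Z_w) = Z_w Z_v`, `Φ(Z_j Z_k) = Z_j Z_k`, so `Φ(HPr) = HP` and `Φ(HM) = HM - X_v`. Hence
`Φ(gRed) ⊆ gStd` if `i X_v ∈ gStd` (the preimage of `gStd` under `Φ` is closed under commutators and contains the generators), and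
`i X_v` is not in the range of `Φ` (its entry `(x, y)` with `y = x` flipped at `v` is nonzero). So
`dim gRed = dim Φ(gRed) < dim gStd` (`Submodule.finrank_lt_finrank_of_lt`).
-/

set_option autoImplicit false

namespace Pool.Agent.QAOA

variable {V : Type*} [Fintype V] [DecidableEq V]

/-- `r x = fun w => xor (x w) (x v)` -/
def embR (v : V) (x : V → Bool) : {w : V // w ≠ v} → Bool := fun w => xor (x w) (x v)

/-- the inverse of `x ↦ (x v, r x)` -/
def embX (v : V) (b : Bool) (z : {w : V // w ≠ v} → Bool) : V → Bool :=
  fun w => if h : w = v then b else xor (z ⟨w, h⟩) b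

omit [Fintype V] in
theorem embX_self (v : V) (b : Bool) (z : {w : V // w ≠ v} → Bool) : embX v b z v = b := by
  unfold embX
  rw [dif_pos rfl]

omit [Fintype V] in
theorem embR_embX (v : V) (b : Bool) (z : {w : V // w ≠ v} → Bool) :
    embR v (embX v b z) = z := by
  funext w
  have h1 : embX v b z w = xor (z w) b := by
    unfold embX
    rw [dif_neg w.2]
  unfold embR
  rw [h1, embX_self]
  cases z w <;> cases b <;> rfl

omit [Fintype V] in
theorem embX_embR (v : V) (x : V → Bool) : embX v (x v) (embR v x) = x := by
  funext w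
  unfold embX
  split_ifs with h
  · rw [h]
  · unfold embR
    show xor (xor (x w) (x v)) (x v) = x w
    cases x w <;> cases x v <;> rfl

/-- `x ↦ (x v, r x)` -/
def embE (v : V) : (V → Bool) ≃ Bool × ({w : V // w ≠ v} → Bool) where
  toFun x := (x v, embR v x)
  invFun p := embX v p.1 p.2
  left_inv x := embX_embR v x
  right_inv p := Prod.ext (embX_self v p.1 p.2) (embR_embX v p.1 p.2)

omit [Fintype V] in
theorem embR_inj (v : V) {x y : V → Bool} (h : x v = y v) (h' : embR v x = embR v y) : x = y := by
  rw [← embX_embR v x, ← embX_embR v y, h, h']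

/-- the embedding `Φ` -/
def embPhi (v : V) : Op {w : V // w ≠ v} →ₗ[ℂ] Op V where
  toFun M := Matrix.of fun x y => if x v = y v then M (embR v x) (embR v y) else 0
  map_add' M N := by
    ext x y
    rw [Matrix.add_apply, Matrix.of_apply, Matrix.of_apply, Matrix.of_apply]
    split_ifs
    · rfl
    · rw [add_zero]
  map_smul' c M := by
    ext x y
    rw [RingHom.id_apply, Matrix.smul_apply, Matrix.of_apply, Matrix.of_apply]
    split_ifs
    · rfl
    · rw [smul_zero]

omit [Fintype V] in
theorem embPhi_apply (v : V) (M : Op {w : V // w ≠ v}) (x y : V → Bool) :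
    embPhi v M x y = if x v = y v then M (embR v x) (embR v y) else 0 := rfl

theorem embPhi_mul (v : V) (M N : Op {w : V // w ≠ v}) :
    embPhi v (M * N) = embPhi v M * embPhi v N := by
  ext x y
  rw [Matrix.mul_apply, ← (embE v).symm.sum_comp, Fintype.sum_prod_type, Fintype.sum_bool,
    embPhi_apply, Matrix.mul_apply]
  have h1 : ∀ b z, embPhi v M x ((embE v).symm (b, z)) = if x v = b then M (embR v x) z else 0 := by
    intro b z
    show embPhi v M x (embX v b z) = _
    rw [embPhi_apply, embX_self, embR_embX]
  have h2 : ∀ b z, embPhi v N ((embE v).symm (b, z)) y = if b = y v then N z (embR v y) else 0 := by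
    intro b z
    show embPhi v N (embX v b z) y = _
    rw [embPhi_apply, embX_self, embR_embX]
  simp only [h1, h2]
  cases x v <;> cases y v <;> simp

omit [Fintype V] in
theorem embPhi_injective (v : V) : Function.Injective (embPhi v) := by
  intro M N h
  ext z z'
  have h1 := congrFun (congrFun h (embX v false z)) (embX v false z')
  rw [embPhi_apply, embPhi_apply, embX_self, embX_self, if_pos rfl, if_pos rfl, embR_embX,
    embR_embX] at h1
  exact h1

theorem embPhi_px (v : V) (w : {w : V // w ≠ v}) : embPhi v (px w) = px (w : V) := by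
  ext x y
  rw [embPhi_apply]
  show (if x v = y v then (if embR v y = Function.update (embR v x) w (!(embR v x w)) then (1 : ℂ)
    else 0) else 0) = if y = Function.update x (w : V) (!(x w)) then 1 else 0
  have key : (x v = y v ∧ embR v y = Function.update (embR v x) w (!(embR v x w))) ↔
      y = Function.update x (w : V) (!(x w)) := by
    constructor
    · rintro ⟨h1, h2⟩
      funext u
      by_cases hu : u = v
      · subst hu
        rw [Function.update_of_ne (Ne.symm w.2), h1]
      · by_cases huw : u = (w : V)
        · subst huw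
          rw [Function.update_self]
          have h3 := congrFun h2 w
          rw [Function.update_self] at h3
          unfold embR at h3
          rw [← h1] at h3
          revert h3
          cases x w <;> cases y w <;> cases x v <;> simp
        · rw [Function.update_of_ne huw]
          have h3 := congrFun h2 ⟨u, hu⟩
          rw [Function.update_of_ne (fun h => huw (congrArg Subtype.val h))] at h3
          unfold embR at h3
          rw [← h1] at h3
          revert h3
          show xor (y u) (x v) = xor (x u) (x v) → y u = x u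
          cases x u <;> cases y u <;> cases x v <;> simp
    · intro h
      have h1 : y v = x v := by
        rw [h, Function.update_of_ne (Ne.symm w.2)]
      refine ⟨h1.symm, ?_⟩
      funext u
      by_cases huw : u = w
      · subst huw
        rw [Function.update_self]
        unfold embR
        rw [h1, h, Function.update_self]
        cases x u <;> cases x v <;> rfl
      · rw [Function.update_of_ne huw]
        unfold embR
        rw [h1, h, Function.update_of_ne (fun h => huw (Subtype.ext h))]
  by_cases h1 : x v = y v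
  · by_cases h2 : embR v y = Function.update (embR v x) w (!(embR v x w))
    · rw [if_pos h1, if_pos h2, if_pos (key.1 ⟨h1, h2⟩)]
    · rw [if_pos h1, if_neg h2, if_neg (fun h => h2 (key.2 h).2)]
  · rw [if_neg h1, if_neg (fun h => h1 (key.2 h).1)]

theorem embPhi_pz (v : V) (w : {w : V // w ≠ v}) : embPhi v (pz w) = pz (w : V) * pz v := by
  ext x y
  unfold pz
  rw [embPhi_apply, Matrix.diagonal_mul_diagonal]
  by_cases hxy : x = y
  · subst hxy
    rw [if_pos rfl, Matrix.diagonal_apply_eq, Matrix.diagonal_apply_eq]
    unfold embR sg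
    cases x w <;> cases x v <;> simp
  · rw [Matrix.diagonal_apply_ne _ hxy]
    by_cases h1 : x v = y v
    · rw [if_pos h1, Matrix.diagonal_apply_ne]
      exact fun h2 => hxy (embR_inj v h1 h2)
    · rw [if_neg h1]

theorem embPz_comm (j k : V) : pz j * pz k = pz k * pz j := by
  unfold pz
  rw [Matrix.diagonal_mul_diagonal, Matrix.diagonal_mul_diagonal]
  congr 1
  funext x
  rw [mul_comm]

theorem embPz_sq (j : V) : pz j * pz j = 1 := by
  unfold pz
  rw [Matrix.diagonal_mul_diagonal, ← Matrix.diagonal_one]
  congr 1
  funext x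
  unfold sg
  split_ifs <;> simp

theorem embPhi_pzpz (v : V) (j k : {w : V // w ≠ v}) :
    embPhi v (pz j * pz k) = pz (j : V) * pz (k : V) := by
  rw [embPhi_mul, embPhi_pz, embPhi_pz, embPz_comm (k : V) v, mul_assoc, ← mul_assoc (pz v),
    embPz_sq, one_mul]

/-- sums over `V` and over the complement of `v` -/
theorem embSum {M : Type*} [AddCommMonoid M] (v : V) (f : V → M) :
    ∑ j, f j = f v + ∑ w : {w : V // w ≠ v}, f w := by
  rw [← Finset.add_sum_erase Finset.univ f (Finset.mem_univ v)]
  congr 1
  rw [← Finset.sum_subtype (Finset.univ.erase v) (fun w => by simp) f]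

theorem embPhi_HM (v : V) : embPhi v (HM {w : V // w ≠ v}) = HM V - px v := by
  unfold HM
  rw [map_sum, embSum v (fun j => px j), add_sub_cancel_left]
  exact Finset.sum_congr rfl fun w _ => embPhi_px v w

open Classical in
theorem embPhi_HPr (G : SimpleGraph V) (v : V) : embPhi v (HPr G v) = HP G := by
  have e1 : embPhi v (HP (G.comap (Subtype.val : {w : V // w ≠ v} → V))) = (1 / 2 : ℂ) •
      ∑ j : {w : V // w ≠ v}, ∑ k : {w : V // w ≠ v},
        if G.Adj j k then pz (j : V) * pz (k : V) else 0 := by
    unfold HP
    rw [map_smul, map_sum]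
    congr 1
    refine Finset.sum_congr rfl fun j _ => ?_
    rw [map_sum]
    refine Finset.sum_congr rfl fun k _ => ?_
    by_cases h : G.Adj j k
    · rw [if_pos h, if_pos (show (G.comap (Subtype.val : {w : V // w ≠ v} → V)).Adj j k from h),
        embPhi_pzpz]
    · rw [if_neg h, if_neg (show ¬ (G.comap (Subtype.val : {w : V // w ≠ v} → V)).Adj j k from h),
        map_zero]
  have e2 : embPhi v (∑ w : {w : V // w ≠ v}, if G.Adj v w then pz w else 0) =
      ∑ w : {w : V // w ≠ v}, if G.Adj v w then pz (w : V) * pz v else 0 := by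
    rw [map_sum]
    refine Finset.sum_congr rfl fun w _ => ?_
    by_cases h : G.Adj v w
    · rw [if_pos h, if_pos h, embPhi_pz]
    · rw [if_neg h, if_neg h, map_zero]
  unfold HPr
  rw [map_add, e1, e2]
  unfold HP
  rw [embSum v (fun j => ∑ k, if G.Adj j k then pz j * pz k else 0)]
  have h3 : (∑ k, if G.Adj v k then pz v * pz k else 0) =
      ∑ w : {w : V // w ≠ v}, if G.Adj v w then pz (w : V) * pz v else 0 := by
    rw [embSum v, if_neg (G.irrefl), zero_add]
    refine Finset.sum_congr rfl fun w _ => ?_
    rw [embPz_comm]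
  have h4 : (∑ j : {w : V // w ≠ v}, ∑ k, if G.Adj j k then pz (j : V) * pz k else 0) =
      (∑ w : {w : V // w ≠ v}, if G.Adj v w then pz (w : V) * pz v else 0) +
      ∑ j : {w : V // w ≠ v}, ∑ k : {w : V // w ≠ v},
        if G.Adj j k then pz (j : V) * pz (k : V) else 0 := by
    rw [← Finset.sum_add_distrib]
    refine Finset.sum_congr rfl fun j _ => ?_
    rw [embSum v]
    congr 1
    by_cases h : G.Adj v j
    · rw [if_pos h, if_pos h.symm]
    · rw [if_neg h, if_neg (fun h3 : G.Adj (j : V) v => h h3.symm)]
  rw [h3, h4]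
  set A := ∑ w : {w : V // w ≠ v}, if G.Adj v w then pz (w : V) * pz v else 0
  set B := ∑ j : {w : V // w ≠ v}, ∑ k : {w : V // w ≠ v},
    if G.Adj j k then pz (j : V) * pz (k : V) else 0
  rw [← add_assoc, ← two_smul ℂ A, smul_add, smul_smul]
  norm_num
  rw [add_comm]

theorem emb_gen_left (A B : Op V) : A ∈ gen A B :=
  Submodule.mem_sInf.2 fun _ hS => hS.1

theorem emb_gen_right (A B : Op V) : B ∈ gen A B :=
  Submodule.mem_sInf.2 fun _ hS => hS.2.1

theorem emb_gen_comm {A B M N : Op V} (hM : M ∈ gen A B) (hN : N ∈ gen A B) :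
    M * N - N * M ∈ gen A B :=
  Submodule.mem_sInf.2 fun S hS =>
    hS.2.2 M (Submodule.mem_sInf.1 hM S hS) N (Submodule.mem_sInf.1 hN S hS)

theorem finrank_gRed_lt (G : SimpleGraph V) (v : V) (h : Complex.I • px v ∈ gStd G) :
    Module.finrank ℝ (gRed G v) < Module.finrank ℝ (gStd G) := by
  set Φ : Op {w : V // w ≠ v} →ₗ[ℝ] Op V := (embPhi v).restrictScalars ℝ with hΦ
  have hΦa : ∀ M, Φ M = embPhi v M := fun M => rfl
  have hle : (gRed G v).map Φ ≤ gStd G := by
    rw [Submodule.map_le_iff_le_comap]
    refine sInf_le ⟨?_, ?_, ?_⟩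
    · rw [Submodule.mem_comap, hΦa, map_smul, embPhi_HPr]
      exact emb_gen_left _ _
    · rw [Submodule.mem_comap, hΦa, map_smul, embPhi_HM, smul_sub]
      exact Submodule.sub_mem _ (emb_gen_right _ _) h
    · intro M hM N hN
      rw [Submodule.mem_comap, hΦa] at hM hN ⊢
      rw [map_sub, embPhi_mul, embPhi_mul]
      exact emb_gen_comm hM hN
  have hlt : (gRed G v).map Φ < gStd G := by
    refine lt_of_le_of_ne hle fun heq => ?_
    rw [← heq] at h
    obtain ⟨M, _, hM⟩ := Submodule.mem_map.1 h
    have h1 := congrFun (congrFun hM (fun _ => false)) (Function.update (fun _ => false) v true)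
    rw [hΦa, embPhi_apply, Function.update_self, if_neg Bool.false_ne_true, Matrix.smul_apply] at h1
    have h2 : px v (fun _ => false) (Function.update (fun _ => false) v true) = 1 := by
      show (if (Function.update (fun _ => false) v true : V → Bool) =
        Function.update (fun _ => false) v (!false) then (1 : ℂ) else 0) = 1
      rw [if_pos (show (Function.update (fun _ => false) v true : V → Bool) =
        Function.update (fun _ => false) v (!false) from rfl)]
    rw [h2, smul_eq_mul, mul_one] at h1
    exact Complex.I_ne_zero h1.symm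
  have hfin : Module.finrank ℝ (gRed G v) = Module.finrank ℝ ((gRed G v).map Φ) :=
    (Submodule.equivMapOfInjective Φ (embPhi_injective v) (gRed G v)).finrank_eq
  rw [hfin]
  exact Submodule.finrank_lt_finrank_of_lt hlt

end Pool.Agent.QAOA
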