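import Pool.Agent.Lib_MP_debdb1_mp.Pauli

/-!
# Piece PAR: an equitable partition modulo 2 whose classes lie in the Lie algebra

Paper proof. The setoids on `V` all of whose classes `A` satisfy `ClassIn G A` form a finite set, which contains the coarsest setoid
(`classIn_univ`). Let `s` be a minimal (finest) one. If `A` is a class and `A1 ⊆ A` satisfies `ClassIn G A1` then `A1 = ∅` or `A1 = A`:
otherwise `s ⊓ (setoid of the function u ↦ decide (u ∈ A1))` is strictly finer and its classes are those of `s` except `A`, which is
replaced by `A1` and `A \ A1` (`classIn_sdiff`). By `classIn_deg` the degrees of the elements of `A` have the same parity, by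
`classIn_nbr` for every class `B ≠ A` the numbers of neighbours in `B` too; since the degree is the sum of the numbers of neighbours over all
classes, the same is true for `B = A`. Take `c u = Quotient.out (class of u)`.

(In the formal proof a partition is a map `c : V → V`, and we take one with the largest number of classes.)
-/

set_option autoImplicit false

namespace Pool.Agent.QAOA

variable {V : Type*} [Fintype V] [DecidableEq V]

/-- all classes of `c` are in the Lie algebra -/
def ParGood (G : SimpleGraph V) (c : V → V) : Prop :=
  ∀ t, ClassIn G (Finset.univ.filter (fun x => c x = t))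

theorem par_classIn_empty (G : SimpleGraph V) : ClassIn G ∅ := by
  unfold ClassIn
  rw [Finset.sum_empty, smul_zero]
  exact Submodule.zero_mem _

/-- a partition with the largest number of classes: no class can be split -/
theorem par_exists_finest (G : SimpleGraph V) :
    ∃ c : V → V, ParGood G c ∧ ∀ t, ∀ A1 ⊆ Finset.univ.filter (fun x => c x = t),
      ClassIn G A1 → A1 = ∅ ∨ A1 = Finset.univ.filter (fun x => c x = t) := by
  classical
  rcases isEmpty_or_nonempty V with hV | ⟨⟨v0⟩⟩
  · refine ⟨id, fun t => hV.elim t, fun t => hV.elim t⟩
  · have hne : (Finset.univ.filter (fun c : V → V => ParGood G c)).Nonempty := by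
      refine ⟨fun _ => v0, Finset.mem_filter.2 ⟨Finset.mem_univ _, fun t => ?_⟩⟩
      by_cases h : v0 = t
      · have : Finset.univ.filter (fun _ : V => v0 = t) = Finset.univ := by
          ext x; simp [h]
        rw [this]
        exact classIn_univ G
      · have : Finset.univ.filter (fun _ : V => v0 = t) = ∅ := by
          ext x; simp [h]
        rw [this]
        exact par_classIn_empty G
    obtain ⟨c, hc, hmax⟩ := Finset.exists_max_image _
      (fun c : V → V => (Finset.univ.image c).card) hne
    have hcg : ParGood G c := (Finset.mem_filter.1 hc).2
    refine ⟨c, hcg, ?_⟩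
    intro t A1 hA1 hcl
    by_contra hcon
    push Not at hcon
    obtain ⟨hne1, hneA⟩ := hcon
    obtain ⟨a, ha⟩ := hne1
    have hcA1 : ∀ x ∈ A1, c x = t := fun x hx => (Finset.mem_filter.1 (hA1 hx)).2
    obtain ⟨b, hb, hbA1⟩ : ∃ b, c b = t ∧ b ∉ A1 := by
      by_contra hcon
      push Not at hcon
      apply hneA
      refine Finset.Subset.antisymm hA1 fun x hx => hcon x (Finset.mem_filter.1 hx).2
    have hab : a ≠ b := fun h => hbA1 (h ▸ ha)
    have hninj : ¬ Function.Injective c := fun h => hab (h ((hcA1 a ha).trans hb.symm))
    have hnsurj : ¬ Function.Surjective c := fun h => hninj (Finite.injective_iff_surjective.2 h)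
    obtain ⟨t', ht'⟩ : ∃ t', ∀ x, c x ≠ t' := by
      by_contra hcon
      push Not at hcon
      exact hnsurj hcon
    let c' : V → V := fun x => if x ∈ A1 then t' else c x
    have hc'1 : ∀ x, x ∈ A1 → c' x = t' := fun x hx => if_pos hx
    have hc'2 : ∀ x, x ∉ A1 → c' x = c x := fun x hx => if_neg hx
    have hg : ParGood G c' := by
      intro s
      by_cases hs : s = t'
      · have : Finset.univ.filter (fun x => c' x = s) = A1 := by
          ext x
          simp only [Finset.mem_filter, Finset.mem_univ, true_and]
          constructor
          · intro h
            by_contra hx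
            rw [hc'2 x hx, hs] at h
            exact ht' x h
          · intro h
            rw [hc'1 x h, hs]
        rw [this]
        exact hcl
      · by_cases hst : s = t
        · have : Finset.univ.filter (fun x => c' x = s) =
              Finset.univ.filter (fun x => c x = t) \ A1 := by
            ext x
            simp only [Finset.mem_filter, Finset.mem_univ, true_and, Finset.mem_sdiff]
            constructor
            · intro h
              have hx : x ∉ A1 := by
                intro hx
                rw [hc'1 x hx] at h
                exact hs h.symm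
              rw [hc'2 x hx] at h
              exact ⟨h.trans hst, hx⟩
            · rintro ⟨h, hx⟩
              rw [hc'2 x hx, h, hst]
          rw [this]
          exact classIn_sdiff G _ _ (hcg t) hcl hA1
        · have : Finset.univ.filter (fun x => c' x = s) =
              Finset.univ.filter (fun x => c x = s) := by
            ext x
            simp only [Finset.mem_filter, Finset.mem_univ, true_and]
            by_cases hx : x ∈ A1
            · rw [hc'1 x hx, hcA1 x hx]
              exact ⟨fun h => absurd h.symm hs, fun h => absurd h.symm hst⟩
            · rw [hc'2 x hx]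
          rw [this]
          exact hcg s
    have hle := hmax c' (Finset.mem_filter.2 ⟨Finset.mem_univ _, hg⟩)
    have himg : insert t' (Finset.univ.image c) ⊆ Finset.univ.image c' := by
      intro y hy
      rcases Finset.mem_insert.1 hy with rfl | hy
      · exact Finset.mem_image.2 ⟨a, Finset.mem_univ _, hc'1 a ha⟩
      · obtain ⟨x, _, rfl⟩ := Finset.mem_image.1 hy
        by_cases hx : x ∈ A1
        · refine Finset.mem_image.2 ⟨b, Finset.mem_univ _, ?_⟩
          rw [hc'2 b hbA1, hb, hcA1 x hx]
        · exact Finset.mem_image.2 ⟨x, Finset.mem_univ _, hc'2 x hx⟩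
    have hnot : t' ∉ Finset.univ.image c := by
      intro h
      obtain ⟨x, _, hx⟩ := Finset.mem_image.1 h
      exact ht' x hx
    have := Finset.card_le_card himg
    rw [Finset.card_insert_of_notMem hnot] at this
    omega

/-- there is an equitable partition modulo 2 such that `i X_v` lies in the Lie algebra for each singleton class `{v}` -/
theorem exists_equi (G : SimpleGraph V) :
    ∃ c : V → V, Equi G c ∧ ∀ v, (∀ w, c w = c v → w = v) → Complex.I • px v ∈ gStd G := by
  classical
  obtain ⟨c, hg, hfin⟩ := par_exists_finest G
  refine ⟨c, ?_, ?_⟩
  · -- parities for the other classes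
    have hoth : ∀ u w, c u = c w → ∀ t, t ≠ c u →
        (Finset.univ.filter (fun x => G.Adj u x ∧ c x = t)).card % 2 =
          (Finset.univ.filter (fun x => G.Adj w x ∧ c x = t)).card % 2 := by
      intro u w huw t ht
      have hdis : Disjoint (Finset.univ.filter (fun x => c x = c u))
          (Finset.univ.filter (fun x => c x = t)) := by
        rw [Finset.disjoint_left]
        intro x hx hx'
        exact ht ((Finset.mem_filter.1 hx').2.symm.trans (Finset.mem_filter.1 hx).2)
      have hcl := classIn_nbr G _ _ (hg (c u)) (hg t) hdis
      have hcard : ∀ a, ((Finset.univ.filter (fun x => c x = t)).filter (fun x => G.Adj a x)).card =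
          (Finset.univ.filter (fun x => G.Adj a x ∧ c x = t)).card := by
        intro a
        congr 1
        ext x
        simp only [Finset.mem_filter, Finset.mem_univ, true_and]
        tauto
      have hor := hfin (c u) _ (Finset.filter_subset _ _) hcl
      have hmem : ∀ a, c a = c u → (a ∈ (Finset.univ.filter (fun x => c x = c u)).filter
          (fun a => ((Finset.univ.filter (fun x => c x = t)).filter
            (fun x => G.Adj a x)).card % 2 = 1) ↔
          (Finset.univ.filter (fun x => G.Adj a x ∧ c x = t)).card % 2 = 1) := by
        intro a ha
        rw [Finset.mem_filter, hcard a]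
        exact ⟨fun h => h.2, fun h => ⟨Finset.mem_filter.2 ⟨Finset.mem_univ _, ha⟩, h⟩⟩
      have hu := hmem u rfl
      have hw := hmem w huw.symm
      rcases hor with h | h
      · rw [h] at hu hw
        have hu' := mt hu.2 (Finset.notMem_empty _)
        have hw' := mt hw.2 (Finset.notMem_empty _)
        omega
      · rw [h] at hu hw
        have hu' := hu.1 (Finset.mem_filter.2 ⟨Finset.mem_univ _, rfl⟩)
        have hw' := hw.1 (Finset.mem_filter.2 ⟨Finset.mem_univ _, huw.symm⟩)
        omega
    have hdeg : ∀ u w, c u = c w → (Finset.univ.filter (fun x => G.Adj u x)).card % 2 =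
        (Finset.univ.filter (fun x => G.Adj w x)).card % 2 := by
      intro u w huw
      have hcl := classIn_deg G _ (hg (c u))
      have hor := hfin (c u) _ (Finset.filter_subset _ _) hcl
      have hmem : ∀ a, c a = c u → (a ∈ (Finset.univ.filter (fun x => c x = c u)).filter
          (fun a => (Finset.univ.filter (fun x => G.Adj a x)).card % 2 = 1) ↔
          (Finset.univ.filter (fun x => G.Adj a x)).card % 2 = 1) := by
        intro a ha
        rw [Finset.mem_filter]
        exact ⟨fun h => h.2, fun h => ⟨Finset.mem_filter.2 ⟨Finset.mem_univ _, ha⟩, h⟩⟩
      have hu := hmem u rfl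
      have hw := hmem w huw.symm
      rcases hor with h | h
      · rw [h] at hu hw
        have hu' := mt hu.2 (Finset.notMem_empty _)
        have hw' := mt hw.2 (Finset.notMem_empty _)
        omega
      · rw [h] at hu hw
        have hu' := hu.1 (Finset.mem_filter.2 ⟨Finset.mem_univ _, rfl⟩)
        have hw' := hw.1 (Finset.mem_filter.2 ⟨Finset.mem_univ _, huw.symm⟩)
        omega
    have hkey : ∀ u w, c u = c w → ∀ t,
        (Finset.univ.filter (fun x => G.Adj u x ∧ c x = t)).card % 2 =
          (Finset.univ.filter (fun x => G.Adj w x ∧ c x = t)).card % 2 := by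
     intro u w huw t
     by_cases ht : t = c u
     · -- the degree is the sum over all classes
       have hsum : ∀ a, (Finset.univ.filter (fun x => G.Adj a x)).card =
           (Finset.univ.filter (fun x => G.Adj a x ∧ c x = t)).card +
             ∑ s ∈ Finset.univ.erase t, (Finset.univ.filter (fun x => G.Adj a x ∧ c x = s)).card := by
         intro a
         rw [Finset.add_sum_erase Finset.univ
           (fun s => (Finset.univ.filter (fun x => G.Adj a x ∧ c x = s)).card) (Finset.mem_univ t)]
         rw [Finset.card_eq_sum_card_fiberwise (f := c) (t := Finset.univ)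
           (fun x _ => Finset.mem_coe.2 (Finset.mem_univ _))]
         refine Finset.sum_congr rfl fun s _ => ?_
         rw [Finset.filter_filter]
       have hS : (∑ s ∈ Finset.univ.erase t,
             (Finset.univ.filter (fun x => G.Adj u x ∧ c x = s)).card) % 2 =
           (∑ s ∈ Finset.univ.erase t,
             (Finset.univ.filter (fun x => G.Adj w x ∧ c x = s)).card) % 2 := by
         rw [Finset.sum_nat_mod, Finset.sum_nat_mod (Finset.univ.erase t) 2
           (fun s => (Finset.univ.filter (fun x => G.Adj w x ∧ c x = s)).card)]
         congr 1
         refine Finset.sum_congr rfl fun s hs => ?_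
         exact hoth u w huw s (fun h => (Finset.mem_erase.1 hs).1 (h.trans ht.symm))
       have h1 := hsum u
       have h2 := hsum w
       have h3 := hdeg u w huw
       omega
     · exact hoth u w huw t ht
    intro u w huw t
    refine Eq.trans ?_ ((hkey u w huw t).trans ?_) <;> congr
  · intro v hv
    have h := hg (c v)
    have hs : Finset.univ.filter (fun x => c x = c v) = {v} := by
      ext x
      simp only [Finset.mem_filter, Finset.mem_univ, true_and, Finset.mem_singleton]
      exact ⟨hv x, fun h => by rw [h]⟩
    rw [hs] at h
    unfold ClassIn at h
    rwa [Finset.sum_singleton] at h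

end Pool.Agent.QAOA
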