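import Pool.Agent.Lib_MP_debdb1_mp.Embed
import Pool.Agent.Lib_MP_debdb1_mp.Part
import Pool.Agent.Lib_MP_debdb1_mp.Asym
import Pool.Agent.Lib_MP_debdb1_mp.Count3

/-!
# MP_debdb1_mp: assembly
-/

set_option autoImplicit false

namespace Pool.Agent.QAOA

open Finset

section crit

variable {V : Type*} [Fintype V] [DecidableEq V]

/-- if every equitable partition modulo 2 has a singleton class then Q1 holds for the graph -/
theorem criterion (G : SimpleGraph V) (h : ∀ c : V → V, Equi G c → ∃ v, ∀ w, c w = c v → w = v) :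
    ∃ v, Module.finrank ℝ (gRed G v) < Module.finrank ℝ (gStd G) := by
  obtain ⟨c, hc, hs⟩ := exists_equi G
  obtain ⟨v, hv⟩ := h c hc
  exact ⟨v, finrank_gRed_lt G v (hs v hv)⟩

/-- if every equitable partition modulo 2 is discrete then the graph is asymmetric and every vertex is good for Q1 -/
theorem criterion_all (G : SimpleGraph V) (h : ∀ c : V → V, Equi G c → Function.Injective c) :
    Asymmetric G ∧ ∀ v, Module.finrank ℝ (gRed G v) < Module.finrank ℝ (gStd G) := by
  refine ⟨asymmetric_of_equi G h, fun v => ?_⟩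
  obtain ⟨c, hc, hs⟩ := exists_equi G
  exact finrank_gRed_lt G v (hs v fun w hw => h c hc hw)

end crit

open Classical in
/-- almost all graphs are asymmetric and every vertex is good for Q1 -/
theorem almost_all (n : ℕ) :
    (univ.filter (fun G : SimpleGraph (Fin n) => ¬ (Asymmetric G ∧
      ∀ v, Module.finrank ℝ (gRed G v) < Module.finrank ℝ (gStd G)))).card * 2 ^ (n / 8) ≤ 2 ^ 1458 * 2 ^ (n.choose 2) := by
  refine le_trans (Nat.mul_le_mul_right _ (card_le_card ?_)) (union_all n)
  intro G hG
  rw [mem_filter] at hG ⊢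
  refine ⟨mem_univ _, ?_⟩
  by_contra hcon
  apply hG.2
  apply criterion_all
  intro c hc
  by_contra hinj
  exact hcon ⟨c, hc, hinj⟩

end Pool.Agent.QAOA
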