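import Mathlib

/-!
# MP_debdb1_mp: the number of graphs on `n` labelled vertices
-/

set_option autoImplicit false

namespace Pool.Agent.QAOA

open Finset

theorem card_graphs (n : ℕ) : Fintype.card (SimpleGraph (Fin n)) = 2 ^ (n.choose 2) := by
  classical
  have e : SimpleGraph (Fin n) ≃ Set {e : Sym2 (Fin n) // ¬ e.IsDiag} :=
    { toFun := fun G => {e | e.1 ∈ G.edgeSet}
      invFun := fun s => SimpleGraph.fromEdgeSet (Subtype.val '' s)
      left_inv := by
        intro G
        ext a b
        rw [SimpleGraph.fromEdgeSet_adj]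
        constructor
        · rintro ⟨⟨e, he, h⟩, _⟩
          rw [← SimpleGraph.mem_edgeSet, ← h]
          exact he
        · intro h
          refine ⟨⟨⟨s(a, b), by simpa using h.ne⟩, ?_, rfl⟩, h.ne⟩
          exact h
      right_inv := by
        intro s
        ext ⟨e, he⟩
        simp only [Set.mem_ofPred_eq, SimpleGraph.edgeSet_fromEdgeSet]
        constructor
        · rintro ⟨⟨e', h1, h2⟩, _⟩
          have : e' = ⟨e, he⟩ := Subtype.ext h2
          rwa [← this]
        · intro h
          exact ⟨⟨⟨e, he⟩, h, rfl⟩, he⟩ }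
  rw [Fintype.card_congr e, Fintype.card_set, Sym2.card_subtype_not_diag, Fintype.card_fin]

end Pool.Agent.QAOA
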